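import Mathlib
import Pool.Agent.W629.TwiceLF

set_option autoImplicit false

/-!
# Nested words: groups of exponent `n` with a normal series with factors of given exponents
-/

namespace Pool.Agent.R669.Nw

open Pool.Agent.H32BU Pool.Agent.W629

universe u

/-- the nested word: for a list `r, s, t, …` it is
`(… (((e w₀ ^ (n / r)) ^ r w₁ ^ (n / s)) ^ s w₂ ^ (n / t)) ^ t …)` -/
def nest {G : Type u} [Group G] (n : ℕ) : List ℕ → (ℕ → G) → G → G
  | [], _, e => e
  | r :: l, w, e => nest n l (fun i => w (i + 1)) ((e * w 0 ^ (n / r)) ^ r)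

theorem nest_map {G H : Type*} [Group G] [Group H] (f : G →* H) (n : ℕ) :
    ∀ (l : List ℕ) (w : ℕ → G) (e : G), f (nest n l w e) = nest n l (fun i => f (w i)) (f e)
  | [], _, _ => rfl
  | r :: l, w, e => by
    rw [nest, nest, nest_map f n l]
    congr 1
    rw [map_pow, map_mul, map_pow]

/-- the nested word depends on the first variables only -/
theorem nest_congr {G : Type u} [Group G] (n : ℕ) :
    ∀ (l : List ℕ) (w w' : ℕ → G) (e : G), (∀ i < l.length, w i = w' i) →
      nest n l w e = nest n l w' e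
  | [], _, _, _, _ => rfl
  | r :: l, w, w', e, h => by
    rw [nest, nest, h 0 (by simp)]
    exact nest_congr n l _ _ _ fun i hi => h (i + 1) (by simpa using hi)

/-- all `r` in the list are unitary divisors of `n` -/
def Unit (n : ℕ) (l : List ℕ) : Prop := ∀ r ∈ l, ∃ s, n = r * s ∧ Nat.Coprime r s

/-- the chain of radicals -/
noncomputable def ch (G : Type u) [Group G] : List ℕ → {N : Subgroup G // N.Normal}
  | [] => ⟨⊥, inferInstance⟩
  | r :: l => by
    haveI := (ch G l).2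
    exact ⟨(Rad r (G ⧸ (ch G l).1)).comap (QuotientGroup.mk' (ch G l).1), inferInstance⟩

instance ch_normal (G : Type u) [Group G] (l : List ℕ) : (ch G l).1.Normal := (ch G l).2

theorem mem_ch_cons {G : Type u} [Group G] (r : ℕ) (l : List ℕ) (e : G) :
    e ∈ (ch G (r :: l)).1 ↔ (QuotientGroup.mk e : G ⧸ (ch G l).1) ∈ Rad r (G ⧸ (ch G l).1) :=
  Iff.rfl

/-- elements of order dividing `r` of a quotient are `s`-th powers -/
theorem lift_pow {G : Type u} [Group G] {r s : ℕ} (h : Nat.Coprime r s) (N : Subgroup G)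
    [N.Normal] (g : G) (hg : (g : G ⧸ N) ^ r = 1) : ∃ z : G, ((z ^ s : G) : G ⧸ N) = g := by
  refine ⟨g ^ (Nat.gcdB r s), ?_⟩
  have hb := Nat.gcd_eq_gcd_ab r s
  rw [Nat.Coprime.gcd_eq_one h] at hb
  rw [QuotientGroup.mk_pow, QuotientGroup.mk_zpow]
  calc ((g : G ⧸ N) ^ (Nat.gcdB r s)) ^ s = (g : G ⧸ N) ^ ((s : ℤ) * Nat.gcdB r s) := by
        rw [mul_comm, zpow_mul, zpow_natCast]
    _ = ((g : G ⧸ N) ^ ((r : ℤ) * Nat.gcdA r s)) * (g : G ⧸ N) ^ ((s : ℤ) * Nat.gcdB r s) := by
        rw [zpow_mul (g : G ⧸ N) (r : ℤ), zpow_natCast, hg, one_zpow, one_mul]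
    _ = (g : G ⧸ N) ^ ((1 : ℕ) : ℤ) := by rw [← zpow_add, ← hb]
    _ = g := by simp

variable {G : Type u} [Group G]

theorem div_eq {n r s : ℕ} (hn : 1 ≤ n) (h : n = r * s) : n / r = s := by
  rw [h]
  refine Nat.mul_div_cancel_left s (Nat.pos_of_ne_zero ?_)
  rintro rfl
  omega

/-- membership in the chain of radicals -/
theorem mem_ch {n r s : ℕ} (hn : 1 ≤ n) (hrs : n = r * s) (hc : Nat.Coprime r s)
    (hG : ∀ x : G, x ^ n = 1) (l : List ℕ) (e : G) :
    e ∈ (ch G (r :: l)).1 ↔ ∀ z : G, (e * z ^ (n / r)) ^ r ∈ (ch G l).1 := by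
  rw [mem_ch_cons, div_eq hn hrs]
  constructor
  · intro h z
    rw [← QuotientGroup.eq_one_iff, QuotientGroup.mk_pow, QuotientGroup.mk_mul]
    refine h.2 _ ?_
    rw [← QuotientGroup.mk_pow, ← pow_mul, mul_comm, ← hrs, hG]
    rfl
  · intro h
    constructor
    · have h1 := h 1
      rw [one_pow, mul_one, ← QuotientGroup.eq_one_iff, QuotientGroup.mk_pow] at h1
      exact h1
    · intro z hz
      obtain ⟨z, rfl⟩ := QuotientGroup.mk_surjective z
      obtain ⟨t, ht⟩ := lift_pow hc (ch G l).1 z hz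
      have h1 := h t
      rw [← QuotientGroup.eq_one_iff, QuotientGroup.mk_pow, QuotientGroup.mk_mul, ht] at h1
      exact h1

theorem mem_ch_iff {n : ℕ} (hn : 1 ≤ n) (hG : ∀ x : G, x ^ n = 1) :
    ∀ (l : List ℕ), Unit n l → ∀ e : G, e ∈ (ch G l).1 ↔ ∀ w : ℕ → G, nest n l w e = 1
  | [], _, e => by
    constructor
    · intro h w
      exact Subgroup.mem_bot.1 h
    · intro h
      exact Subgroup.mem_bot.2 (h 1)
  | r :: l, hl, e => by
    obtain ⟨s, hs, hc⟩ := hl r (by simp)
    have hl' : Unit n l := fun r' hr' => hl r' (by simp [hr'])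
    rw [mem_ch hn hs hc hG]
    constructor
    · intro h w
      exact (mem_ch_iff hn hG l hl' _).1 (h (w 0)) _
    · intro h z
      refine (mem_ch_iff hn hG l hl' _).2 fun w => ?_
      have h1 := h (fun i => Nat.casesOn i z w)
      exact h1

/-- the group has a normal series whose factors, from the top to the bottom, have exponents
dividing the members of the list -/
def HasSeries (l : List ℕ) (G : Type u) [Group G] : Prop :=
  ∃ N : ℕ → Subgroup G, N 0 = ⊤ ∧ N l.length = ⊥ ∧ ∀ (i : ℕ) (h : i < l.length),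
    (N i).Normal ∧ N (i + 1) ≤ N i ∧ ∀ x ∈ N i, x ^ l[i] ∈ N (i + 1)

/-- a chain of normal subgroups below `H` -/
def Ser (G : Type u) [Group G] : List ℕ → Subgroup G → Prop
  | [], H => H = ⊥
  | r :: l, H => H.Normal ∧ ∃ K : Subgroup G, K ≤ H ∧ (∀ x ∈ H, x ^ r ∈ K) ∧ Ser G l K

theorem Ser.normal : ∀ {l : List ℕ} {H : Subgroup G}, Ser G l H → H.Normal
  | [], H, h => by
    have h' : H = ⊥ := h
    rw [h']
    infer_instance
  | _ :: _, _, h => h.1

theorem ser_iff : ∀ (l : List ℕ) (H : Subgroup G), Ser G l H ↔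
    ∃ N : ℕ → Subgroup G, N 0 = H ∧ N l.length = ⊥ ∧ ∀ (i : ℕ) (h : i < l.length),
      (N i).Normal ∧ N (i + 1) ≤ N i ∧ ∀ x ∈ N i, x ^ l[i] ∈ N (i + 1)
  | [], H => by
    constructor
    · intro h
      exact ⟨fun _ => H, rfl, h, fun i hi => absurd hi (by simp)⟩
    · rintro ⟨N, h1, h2, -⟩
      rw [← h1]
      exact h2
  | r :: l, H => by
    constructor
    · rintro ⟨hH, K, hK, hx, hS⟩
      obtain ⟨N, h1, h2, h3⟩ := (ser_iff l K).1 hS
      refine ⟨fun i => Nat.casesOn i H N, rfl, h2, ?_⟩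
      rintro (_ | i) hi
      · refine ⟨hH, ?_, ?_⟩
        · change N 0 ≤ H
          rw [h1]
          exact hK
        · intro x hx'
          change x ^ r ∈ N 0
          rw [h1]
          exact hx x hx'
      · exact h3 i (by simpa using hi)
    · rintro ⟨N, h1, h2, h3⟩
      obtain ⟨h4, h5, h6⟩ := h3 0 (by simp)
      rw [h1] at h4 h5 h6
      refine ⟨h4, N 1, h5, h6, (ser_iff l _).2 ⟨fun i => N (i + 1), rfl, h2, fun i hi => ?_⟩⟩
      exact h3 (i + 1) (by simpa using hi)

theorem hasSeries_iff (l : List ℕ) : HasSeries l G ↔ Ser G l ⊤ := (ser_iff l ⊤).symm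

/-- the chain of radicals is a normal series -/
theorem ch_ser {n : ℕ} (hn : 1 ≤ n) (hG : ∀ x : G, x ^ n = 1) :
    ∀ (l : List ℕ), Unit n l → Ser G l (ch G l).1
  | [], _ => rfl
  | r :: l, hl => by
    obtain ⟨s, hs, hc⟩ := hl r (by simp)
    have hl' : Unit n l := fun r' hr' => hl r' (by simp [hr'])
    refine ⟨inferInstance, (ch G l).1, ?_, ?_, ch_ser hn hG l hl'⟩
    · intro x hx
      rw [mem_ch_cons, (QuotientGroup.eq_one_iff x).2 hx]
      exact one_mem _
    · intro x hx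
      have h1 := (mem_ch hn hs hc hG l x).1 hx 1
      rwa [one_pow, mul_one] at h1

/-- the chain of radicals is the largest one -/
theorem ser_le {n : ℕ} (hn : 1 ≤ n) (hG : ∀ x : G, x ^ n = 1) :
    ∀ (l : List ℕ), Unit n l → ∀ H : Subgroup G, Ser G l H → H ≤ (ch G l).1
  | [], _, H, h => by
    have h' : H = ⊥ := h
    rw [h']
    exact bot_le
  | r :: l, hl, H, h => by
    obtain ⟨s, hs, hc⟩ := hl r (by simp)
    have hl' : Unit n l := fun r' hr' => hl r' (by simp [hr'])
    obtain ⟨hH, K, hK, hx, hS⟩ := h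
    have h1 := ser_le hn hG l hl' K hS
    have hKn := hS.normal
    intro e he
    rw [mem_ch hn hs hc hG]
    intro z
    apply h1
    rw [div_eq hn hs]
    have h2 : (e * z ^ s) ^ r ∈ H := by
      rw [← QuotientGroup.eq_one_iff, QuotientGroup.mk_pow, QuotientGroup.mk_mul,
        (QuotientGroup.eq_one_iff e).2 he, one_mul, ← QuotientGroup.mk_pow, ← pow_mul, mul_comm,
        ← hs, hG]
      rfl
    have h3 := hx _ h2
    rw [← QuotientGroup.eq_one_iff] at h3 ⊢
    refine eq_one_of_coprime hc (by rw [← QuotientGroup.mk_pow]; exact h3) ?_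
    rw [← QuotientGroup.mk_pow, ← pow_mul, ← hs, hG]
    rfl

/-- the nested word characterises the groups with a normal series of the given type -/
theorem series_iff {n r : ℕ} (hn : 1 ≤ n) (l : List ℕ) (hl : Unit n (r :: l))
    (hG : ∀ x : G, x ^ n = 1) :
    HasSeries (r :: l) G ↔ ∀ (x : G) (w : ℕ → G), nest n l w (x ^ r) = 1 := by
  have hl' : Unit n l := fun r' hr' => hl r' (by simp [hr'])
  rw [hasSeries_iff]
  constructor
  · rintro ⟨-, K, -, hx, hS⟩ x w
    exact (mem_ch_iff hn hG l hl' _).1 (ser_le hn hG l hl' K hS (hx x (Subgroup.mem_top x))) w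
  · intro h
    exact ⟨inferInstance, (ch G l).1, le_top, fun x _ => (mem_ch_iff hn hG l hl' _).2 (h x),
      ch_ser hn hG l hl'⟩

end Pool.Agent.R669.Nw
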