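import Mathlib
import Pool.Agent.R669.NwA
import Pool.Agent.TH69.OgC

set_option autoImplicit false

/-!
# Nested words: local finiteness, and the series of a finite soluble group
-/

namespace Pool.Agent.R669.Nw

open Pool.Agent.H32BU Pool.Agent.W629 Pool.Agent.TH69.Od Pool.Agent.TH69.Og

/-- a group with a series whose factors have exponents in `𝓛` is locally finite -/
theorem lf_ser {G : Type} [Group G] : ∀ (l : List ℕ), (∀ r ∈ l, LocFin r) → ∀ H : Subgroup G,
    Ser G l H → LF H
  | [], _, H, h => by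
    have h' : H = ⊥ := h
    rw [h']
    intro S
    infer_instance
  | r :: l, hl, H, h => by
    obtain ⟨hH, K, hK, hx, hS⟩ := h
    have h1 := lf_ser l (fun s hs => hl s (by simp [hs])) K hS
    have hKn := hS.normal
    have h2 : LF (K.subgroupOf H) := by
      refine x_LFS.2.1 (K.subgroupOf H) K (Subgroup.subgroupOfEquivOfLe hK).toMonoidHom ?_ h1
      exact (Subgroup.subgroupOfEquivOfLe hK).injective
    refine x_SCH H (K.subgroupOf H) h2 (hl r (by simp) _ ?_)
    intro x
    obtain ⟨x, rfl⟩ := QuotientGroup.mk_surjective x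
    rw [← QuotientGroup.mk_pow, QuotientGroup.eq_one_iff, Subgroup.mem_subgroupOf]
    exact hx x x.2

theorem lf_series {G : Type} [Group G] {l : List ℕ} (hl : ∀ r ∈ l, LocFin r)
    (h : HasSeries l G) : LF G := by
  have h1 := lf_ser l hl ⊤ ((hasSeries_iff l).1 h)
  refine x_LFS.1 (⊤ : Subgroup G) G (⊤ : Subgroup G).subtype ?_ h1
  intro x
  exact ⟨⟨x, Subgroup.mem_top x⟩, rfl⟩

universe u

/-- local finiteness from the law, in all universes -/
theorem lf_law {n r : ℕ} (hn : 1 ≤ n) (l : List ℕ) (hl : Unit n (r :: l))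
    (hL : ∀ s ∈ r :: l, LocFin s) (G : Type u) [Group G] (hG : ∀ x : G, x ^ n = 1)
    (h : ∀ (x : G) (w : ℕ → G), nest n l w (x ^ r) = 1) (S : Set G) (hS : S.Finite) :
    Finite (Subgroup.closure S) := by
  refine finite_closure_u S hS fun Q _ f hf => ?_
  refine lf_series hL ((series_iff hn l hl fun x => hf ?_).2 fun x w => hf ?_)
  · rw [map_pow, hG, map_one]
  · rw [nest_map, map_pow, h, map_one]

/-- the list `q, m, q, m, …` of length `2 j` -/
def alt (q m : ℕ) : ℕ → List ℕ
  | 0 => []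
  | j + 1 => q :: m :: alt q m j

theorem alt_length (q m : ℕ) : ∀ j, (alt q m j).length = 2 * j
  | 0 => rfl
  | j + 1 => by
    rw [alt, List.length_cons, List.length_cons, alt_length q m j]
    omega

theorem alt_succ (q m : ℕ) : ∀ j, alt q m (j + 1) = alt q m j ++ [q, m]
  | 0 => rfl
  | j + 1 => by
    change q :: m :: alt q m (j + 1) = (q :: m :: alt q m j) ++ [q, m]
    rw [alt_succ q m j]
    rfl

theorem alt_mem {q m r : ℕ} : ∀ {j : ℕ}, r ∈ m :: alt q m j → r = q ∨ r = m
  | 0, h => by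
    simp [alt] at h
    exact Or.inr h
  | j + 1, h => by
    rw [alt, List.mem_cons, List.mem_cons] at h
    rcases h with h | h | h
    · exact Or.inr h
    · exact Or.inl h
    · exact alt_mem h

/-- series of a quotient and of the kernel -/
theorem ser_append {F : Type u} [Group F] (B : Subgroup F) [B.Normal] (l' : List ℕ)
    (hB : Ser F l' B) : ∀ (l : List ℕ) (H : Subgroup (F ⧸ B)), Ser (F ⧸ B) l H →
      Ser F (l ++ l') (H.comap (QuotientGroup.mk' B))
  | [], H, h => by
    have h' : H = ⊥ := h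
    rw [h', MonoidHom.comap_bot, QuotientGroup.ker_mk']
    exact hB
  | r :: l, H, h => by
    obtain ⟨hH, K, hK, hx, hS⟩ := h
    refine ⟨hH.comap _, K.comap (QuotientGroup.mk' B), Subgroup.comap_mono hK, ?_,
      ser_append B l' hB l K hS⟩
    intro x hx'
    rw [Subgroup.mem_comap, map_pow]
    exact hx _ hx'

/-- the series of a finite soluble group of exponent `p ^ j m` -/
theorem ser_solv {p m a : ℕ} (hp : p.Prime) (hpm : ¬ p ∣ m) (hm : m ≠ 0)
    (hex : ∀ q : ℕ, q.Prime → q ∣ m → ∀ μ, 1 ≤ μ → μ ≤ a → ∀ r, 1 ≤ r → q ^ r ≠ p ^ μ - 1) :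
    ∀ j : ℕ, j ≤ a → ∀ (F : Type) [Group F] [Finite F], Group.IsSolvable F →
      (∀ x : F, x ^ (p ^ j * m) = 1) → Ser F (m :: alt (p ^ a) m j) ⊤ := by
  have hcpm : Nat.Coprime p m := (Nat.Prime.coprime_iff_not_dvd hp).2 hpm
  intro j
  induction j with
  | zero =>
    intro _ F _ _ _ hF
    refine ⟨inferInstance, ⊥, bot_le, ?_, rfl⟩
    intro x _
    rw [Subgroup.mem_bot]
    simpa using hF x
  | succ j ih =>
    intro hj F _ _ hsol hF
    have hc : Nat.Coprime (p ^ (j + 1)) m := Nat.Coprime.pow_left _ hcpm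
    have hF' : ∀ x : F, x ^ (m * p ^ (j + 1)) = 1 := fun x => by rw [mul_comm]; exact hF x
    let A : Subgroup F := Rad m F
    let B : Subgroup F := (Rad (p ^ (j + 1)) (F ⧸ A)).comap (QuotientGroup.mk' A)
    have hA : A.Normal := rad_normal m
    have hBn : B.Normal := inferInstance
    have hxB : ∀ x : F, x ^ p ^ (j + 1) = 1 → x ^ p ^ j ∈ B := by
      intro x hx
      obtain ⟨A', B', h1, h2, h3, h4, h5⟩ := hhBG hp hpm hm (Nat.succ_le_succ (Nat.zero_le j))
        (fun q hq hqm μ h1 h2 r hr => hex q hq hqm μ h1 (h2.trans hj) r hr) hF hsol hx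
      rw [Nat.succ_sub_one] at h5
      have hA'n : A'.Normal := ⟨fun x hx g => h1 g (Subgroup.mem_top g) x hx⟩
      have hB'n : B'.Normal := ⟨fun x hx g => h2 g (Subgroup.mem_top g) x hx⟩
      have hA'A : A' ≤ A := le_rad hc.symm hF' A' h3
      have hBm : (B'.map (QuotientGroup.mk' A)).Normal :=
        hB'n.map _ (QuotientGroup.mk'_surjective A)
      have h6 : B'.map (QuotientGroup.mk' A) ≤ Rad (p ^ (j + 1)) (F ⧸ A) := by
        refine le_rad hc (exp_quot hF A) _ ?_
        rintro _ ⟨y, hy, rfl⟩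
        rw [← map_pow]
        exact (QuotientGroup.eq_one_iff _).2 (hA'A (h4 y hy))
      exact h6 ⟨_, h5, rfl⟩
    have hFB : ∀ x : F ⧸ B, x ^ (p ^ j * m) = 1 := by
      intro x
      obtain ⟨g, rfl⟩ := QuotientGroup.mk_surjective x
      rw [← QuotientGroup.mk_pow, QuotientGroup.eq_one_iff, mul_comm, pow_mul]
      exact hxB _ (by rw [← pow_mul, hF'])
    have h7 := ih (by omega) (F ⧸ B)
      (Group.isSolvable_of_surjective (QuotientGroup.mk'_surjective B)) hFB
    have h8 : Ser F [p ^ a, m] B := by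
      refine ⟨hBn, A, ?_, ?_, hA, ⊥, bot_le, ?_, rfl⟩
      · intro x hx
        change (QuotientGroup.mk' A) x ∈ Rad (p ^ (j + 1)) (F ⧸ A)
        have : (QuotientGroup.mk' A) x = 1 := (QuotientGroup.eq_one_iff x).2 hx
        rw [this]
        exact one_mem _
      · intro x hx
        have h9 : (QuotientGroup.mk' A) x ^ p ^ (j + 1) = 1 := rad_pow hx
        rw [← map_pow] at h9
        have h10 : x ^ p ^ (j + 1) ∈ A := (QuotientGroup.eq_one_iff _).1 h9
        obtain ⟨c, hc⟩ := pow_dvd_pow p hj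
        rw [hc, pow_mul]
        exact pow_mem h10 _
      · intro x hx
        exact Subgroup.mem_bot.2 (rad_pow hx)
    have h9 := ser_append B [p ^ a, m] h8 (m :: alt (p ^ a) m j) ⊤ h7
    rw [Subgroup.comap_top, List.cons_append, ← alt_succ] at h9
    exact h9

end Pool.Agent.R669.Nw
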