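import Mathlib
import Pool.Agent.R669.NwB
import Pool.Agent.H32BU.Fin2

set_option autoImplicit false

/-!
# Nested words: one word decides whether `p ^ a m` is in `𝓛`
-/

namespace Pool.Agent.R669.Nw

open Pool.Agent.H32BU Pool.Agent.W629

universe u

/-- a copy in `Type` of a finitely generated subgroup -/
theorem exists_small {G : Type u} [Group G] (k : ℕ) (v : Fin k → G) :
    ∃ (Q : Type) (_ : Group Q) (f : Q →* G) (v' : Fin k → Q), Function.Injective f ∧
      (∀ i, f (v' i) = v i) ∧ (Finite (Subgroup.closure (Set.range v)) → Finite Q) := by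
  let f0 : FreeGroup (Fin k) →* G := FreeGroup.lift v
  refine ⟨FreeGroup (Fin k) ⧸ f0.ker, inferInstance, QuotientGroup.kerLift f0,
    fun i => QuotientGroup.mk (FreeGroup.of i), QuotientGroup.kerLift_injective f0, ?_, ?_⟩
  · intro i
    change f0 (FreeGroup.of i) = v i
    simp [f0]
  · intro hfin
    rw [← FreeGroup.range_lift_eq_closure] at hfin
    have : Finite f0.range := hfin
    exact Finite.of_injective (fun x : FreeGroup (Fin k) ⧸ f0.ker =>
      (⟨QuotientGroup.kerLift f0 x, by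
        obtain ⟨y, rfl⟩ := QuotientGroup.mk_surjective x
        exact ⟨y, rfl⟩⟩ : f0.range)) fun x y h =>
          QuotientGroup.kerLift_injective f0 (congrArg Subtype.val h)

/-- the exponents `p ^ a m` treated here -/
def Generic (p a m : ℕ) : Prop :=
  p.Prime ∧ ¬ p ∣ m ∧ 1 ≤ m ∧
    ∀ q : ℕ, q.Prime → q ∣ m → ∀ μ, 1 ≤ μ → μ ≤ a → ∀ r, 1 ≤ r → q ^ r ≠ p ^ μ - 1

theorem Generic.pos {p a m : ℕ} (h : Generic p a m) : 1 ≤ p ^ a * m :=
  Nat.mul_pos (pow_pos h.1.pos a) h.2.2.1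

theorem Generic.unit {p a m : ℕ} (h : Generic p a m) : Unit (p ^ a * m) (m :: alt (p ^ a) m a) := by
  have hc : Nat.Coprime (p ^ a) m :=
    Nat.Coprime.pow_left _ ((Nat.Prime.coprime_iff_not_dvd h.1).2 h.2.1)
  intro r hr
  rcases alt_mem hr with rfl | rfl
  · exact ⟨m, rfl, hc⟩
  · exact ⟨p ^ a, mul_comm _ _, hc.symm⟩

theorem solv_two {n : ℕ} (hn : 1 ≤ n) (h2 : n.primeFactors.card ≤ 2) {F : Type} [Group F]
    [Finite F] (hF : ∀ x : F, x ^ n = 1) : Group.IsSolvable F := by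
  obtain ⟨p, q, a, b, hp, hq, rfl⟩ := two_primes n hn h2
  exact solv_of_exp p q a b hp hq hF

/-- the law holds in the finite soluble groups -/
theorem law_solv {p a m : ℕ} (h : Generic p a m) {F : Type} [Group F] [Finite F]
    (hs : Group.IsSolvable F) (hF : ∀ x : F, x ^ (p ^ a * m) = 1) (x : F) (w : ℕ → F) :
    nest (p ^ a * m) (alt (p ^ a) m a) w (x ^ m) = 1 := by
  have h1 := ser_solv h.1 h.2.1 (by have := h.2.2.1; omega) h.2.2.2 a le_rfl F hs hF
  exact (series_iff h.pos _ h.unit hF).1 ((hasSeries_iff _).2 h1) x w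

/-- the law holds in the locally finite groups -/
theorem law_lf {p a m : ℕ} (h : Generic p a m) (h2 : (p ^ a * m).primeFactors.card ≤ 2)
    (G : Type u) [Group G] (hG : ∀ x : G, x ^ (p ^ a * m) = 1)
    (hlf : ∀ S : Set G, S.Finite → Finite (Subgroup.closure S)) (x : G) (w : ℕ → G) :
    nest (p ^ a * m) (alt (p ^ a) m a) w (x ^ m) = 1 := by
  let v : Fin (2 * a + 1) → G := fun i => Nat.casesOn (i : ℕ) x w
  obtain ⟨Q, _, f, v', hf, hv, hfin⟩ := exists_small (2 * a + 1) v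
  have : Finite Q := hfin (hlf _ (Set.finite_range v))
  have hQ : ∀ x : Q, x ^ (p ^ a * m) = 1 := fun x => hf (by rw [map_pow, hG, map_one])
  have h1 := law_solv h (solv_two h.pos h2 hQ) hQ (v' ⟨0, by omega⟩)
    (fun i => if hi : i + 1 < 2 * a + 1 then v' ⟨i + 1, hi⟩ else 1)
  have h3 := congrArg f h1
  rw [nest_map, map_pow, hv, map_one] at h3
  refine Eq.trans (nest_congr _ _ _ _ _ fun i hi => ?_) h3
  rw [alt_length] at hi
  have hi' : i + 1 < 2 * a + 1 := by omega
  simp only [dif_pos hi', hv]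
  rfl

/-- The generators of `B_{m,n}` (and `1` for indices `≥ m`). -/
def gen (m n : ℕ) (i : ℕ) : Bu m n :=
  if h : i < m then QuotientGroup.mk (FreeGroup.of ⟨i, h⟩) else 1

/-- homomorphisms from the free Burnside group -/
theorem exists_lift {k n : ℕ} {G : Type u} [Group G] (hG : ∀ x : G, x ^ n = 1) (v : ℕ → G) :
    ∃ F : Bu k n →* G, ∀ i, i < k → F (gen k n i) = v i := by
  let f0 : FreeGroup (Fin k) →* G := FreeGroup.lift fun i => v i
  have hker : Subgroup.normalClosure (Set.range fun w : FreeGroup (Fin k) => w ^ n) ≤ f0.ker := by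
    apply Subgroup.normalClosure_le_normal
    rintro _ ⟨w, rfl⟩
    rw [SetLike.mem_coe, MonoidHom.mem_ker, map_pow, hG]
  refine ⟨QuotientGroup.lift _ f0 hker, fun i hi => ?_⟩
  rw [gen, dif_pos hi]
  change f0 (FreeGroup.of ⟨i, hi⟩) = v i
  simp [f0]

/-- `𝓛` -/
def InL (n : ℕ) : Prop := ∀ (G : Type u) [Group G], (∀ x : G, x ^ n = 1) →
  ∀ S : Set G, S.Finite → Finite (Subgroup.closure S)

theorem inL_loc {n : ℕ} : InL.{u} n ↔ LocFin n := H32BU.inL_iff x_LFD n

theorem lf_of_law {p a m : ℕ} (h : Generic p a m) (h1 : LocFin (p ^ a)) (h2 : LocFin m)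
    (G : Type u) [Group G] (hG : ∀ x : G, x ^ (p ^ a * m) = 1)
    (hlaw : ∀ (x : G) (w : ℕ → G), nest (p ^ a * m) (alt (p ^ a) m a) w (x ^ m) = 1)
    (S : Set G) (hS : S.Finite) : Finite (Subgroup.closure S) := by
  refine lf_law h.pos _ h.unit (fun s hs => ?_) G hG hlaw S hS
  rcases alt_mem hs with rfl | rfl
  · exact h1
  · exact h2

/-- the word in the generators implies the law -/
theorem law_of_word {p a m : ℕ} {G : Type u} [Group G] (hG : ∀ x : G, x ^ (p ^ a * m) = 1)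
    (hw : nest (p ^ a * m) (alt (p ^ a) m a) (fun i => gen (2 * a + 1) (p ^ a * m) (i + 1))
      (gen (2 * a + 1) (p ^ a * m) 0 ^ m) = 1) (x : G) (w : ℕ → G) :
    nest (p ^ a * m) (alt (p ^ a) m a) w (x ^ m) = 1 := by
  obtain ⟨F, hF⟩ := exists_lift (k := 2 * a + 1) hG (fun i => Nat.casesOn i x w)
  have h3 := congrArg F hw
  rw [nest_map, map_pow, hF 0 (by omega), map_one] at h3
  refine Eq.trans (nest_congr _ _ _ _ _ fun i hi => ?_) h3
  rw [alt_length] at hi
  exact (hF (i + 1) (by omega)).symm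

/-- one word decides whether `p ^ a m` is in `𝓛` -/
theorem inL_iff_word {p a m : ℕ} (h : Generic p a m)
    (hs : (p ^ a * m).primeFactors.card ≤ 2 ∨ Group.IsSolvable (Bu (2 * a + 1) (p ^ a * m))) :
    InL.{u} (p ^ a * m) ↔ InL.{u} (p ^ a) ∧ InL.{u} m ∧
      nest (p ^ a * m) (alt (p ^ a) m a) (fun i => gen (2 * a + 1) (p ^ a * m) (i + 1))
        (gen (2 * a + 1) (p ^ a * m) 0 ^ m) = 1 := by
  simp only [inL_loc]
  constructor
  · intro hL
    have hf : Finite (Bu (2 * a + 1) (p ^ a * m)) := x_LFD.2.1 _ _ hL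
    have he := x_LFD.2.2.2 (2 * a + 1) (p ^ a * m)
    refine ⟨x_LFD.1 _ _ (dvd_mul_right _ _) hL, x_LFD.1 _ _ (dvd_mul_left _ _) hL, ?_⟩
    have hsol : Group.IsSolvable (Bu (2 * a + 1) (p ^ a * m)) := by
      rcases hs with hs | hs
      · exact solv_two h.pos hs he
      · exact hs
    exact law_solv h hsol he _ _
  · rintro ⟨h1, h2, hw⟩
    rw [← inL_loc.{0}]
    intro G _ hG S hS
    exact lf_of_law h h1 h2 G hG (law_of_word hG hw) S hS

theorem nest_two {G : Type u} [Group G] {p m : ℕ} (hp : 1 ≤ p) (hm : 1 ≤ m) (w : ℕ → G) (e : G) :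
    nest (p * m) [p, m] w e = ((e * w 0 ^ m) ^ p * w 1 ^ p) ^ m := by
  have h1 : p * m / p = m := Nat.mul_div_cancel_left _ hp
  have h2 : p * m / m = p := Nat.mul_div_cancel _ hm
  simp only [nest, h1, h2]

end Pool.Agent.R669.Nw
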