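import Mathlib
import Pool.Agent.R669.NwC

set_option autoImplicit false

/-!
# Nested words: which exponents are covered
-/

namespace Pool.Agent.R669.Nw

open Pool.Agent.H32BU

/-- odd primes and odd cofactors -/
theorem generic_odd {p a m : ℕ} (hp : p.Prime) (hp2 : p ≠ 2) (hpm : ¬ p ∣ m) (hm : Odd m) :
    Generic p a m := by
  refine ⟨hp, hpm, hm.pos, fun q hq hqm μ hμ _ r hr h => ?_⟩
  have hq2 : Odd q := Odd.of_dvd_nat hm hqm
  have h1 : Odd (q ^ r) := hq2.pow
  have h2 : Odd (p ^ μ) := (hp.odd_of_ne_two hp2).pow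
  rw [h] at h1
  obtain ⟨k, hk⟩ := h2
  rw [hk, Nat.add_sub_cancel] at h1
  exact Nat.not_odd_iff_even.2 (even_two_mul k) h1

/-- `2 ^ s = q ^ ν - 1` and `q % 4 = 3` imply `q = 3` -/
theorem eq_three {q ν s : ℕ} (hq4 : q % 4 = 3) (hν : 1 ≤ ν) (hs : 1 ≤ s) (h : 2 ^ s = q ^ ν - 1) :
    q = 3 := by
  have hpos : 1 ≤ q ^ ν := Nat.one_le_pow _ _ (by omega)
  have h' : q ^ ν = 2 ^ s + 1 := by omega
  rcases Nat.even_or_odd ν with ⟨k, hk⟩ | ⟨k, hk⟩
  · -- `q ^ ν` is a square
    subst hk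
    have hk1 : 1 ≤ k := by omega
    obtain ⟨y, hy⟩ : ∃ y, y = q ^ k := ⟨_, rfl⟩
    have h1 : y * y = 2 ^ s + 1 := by rw [hy, ← pow_add, h']
    have hy1 : 1 ≤ y := by rw [hy]; exact Nat.one_le_pow _ _ (by omega)
    have h2 : (y - 1) * (y + 1) = 2 ^ s := by
      obtain ⟨z, rfl⟩ : ∃ z, y = z + 1 := ⟨y - 1, by omega⟩
      have : (z + 1) * (z + 1) = 2 ^ s + 1 := h1
      simp only [Nat.add_sub_cancel]
      nlinarith
    obtain ⟨i, -, hi⟩ := (Nat.dvd_prime_pow Nat.prime_two).1 (Dvd.intro _ h2)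
    obtain ⟨j, -, hj⟩ := (Nat.dvd_prime_pow Nat.prime_two).1 (Dvd.intro_left _ h2)
    have h3 : 2 ^ j = 2 ^ i + 2 := by omega
    have hi1 : i = 1 := by
      rcases i with _ | _ | i
      · rw [pow_zero] at h3
        rcases j with _ | _ | j
        · simp at h3
        · simp at h3
        · rw [pow_add] at h3
          omega
      · rfl
      · exfalso
        rcases j with _ | _ | j
        · rw [pow_zero] at h3
          have := Nat.one_le_two_pow (n := i + 1 + 1)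
          omega
        · rw [zero_add, pow_one] at h3
          have := Nat.one_le_two_pow (n := i + 1 + 1)
          omega
        · rw [show i + 1 + 1 = i + 2 from rfl, show j + 1 + 1 = j + 2 from rfl, pow_add,
            pow_add] at h3
          omega
    rw [hi1] at hi
    have hy3 : q ^ k = 3 := by omega
    have hqd : q ∣ 3 := by
      rw [← hy3]
      exact dvd_pow_self q (by omega)
    rcases (Nat.dvd_prime Nat.prime_three).1 hqd with h4 | h4
    · omega
    · exact h4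
  · -- `q ^ ν` is `3` modulo `4`
    have h1 : q ^ ν % 4 = 3 := by
      rw [hk, pow_succ, pow_mul, Nat.mul_mod, Nat.pow_mod, Nat.pow_mod q 2, hq4]
      norm_num
    have hs1 : s = 1 := by
      rcases s with _ | _ | s
      · omega
      · rfl
      · rw [h', pow_add] at h1
        omega
    rw [hs1] at h'
    have hqd : q ∣ 3 := by
      have : q ∣ q ^ ν := dvd_pow_self q (by omega)
      rw [h'] at this
      simpa using this
    rcases (Nat.dvd_prime Nat.prime_three).1 hqd with h4 | h4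
    · omega
    · exact h4

/-- exponents `2 ^ a q ^ b` -/
theorem generic_two {q a b : ℕ} (hq : q.Prime) (hq2 : q ≠ 2) (hb : 1 ≤ b)
    (h12 : ¬ 12 ∣ 2 ^ a * q ^ b) : Generic 2 a (q ^ b) ∨ Generic q b (2 ^ a) := by
  have hqo : Odd q := hq.odd_of_ne_two hq2
  by_cases h : ∀ μ, 1 ≤ μ → μ ≤ a → ∀ r, 1 ≤ r → q ^ r ≠ 2 ^ μ - 1
  · left
    refine ⟨Nat.prime_two, ?_, Nat.one_le_pow _ _ hq.pos, fun q' hq' hd => ?_⟩
    · intro hd
      have := (Nat.prime_dvd_prime_iff_eq Nat.prime_two hq).1 (Nat.prime_two.dvd_of_dvd_pow hd)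
      omega
    · have := (Nat.prime_dvd_prime_iff_eq hq' hq).1 (hq'.dvd_of_dvd_pow hd)
      rw [this]
      exact h
  · right
    push Not at h
    obtain ⟨μ, hμ, hμa, r, hr, he⟩ := h
    -- `μ ≥ 2`, so `q = 3` modulo `4`
    have hq3 : 3 ≤ q := by
      have := hq.two_le
      omega
    have hqr : 3 ≤ q ^ r := hq3.trans (Nat.le_self_pow (by omega) q)
    have hμ2 : 2 ≤ μ := by
      by_contra hcon
      have : μ = 1 := by omega
      rw [this] at he
      simp at he
      omega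
    have h4 : q ^ r % 4 = 3 := by
      obtain ⟨μ, rfl⟩ : ∃ c, μ = c + 2 := ⟨μ - 2, by omega⟩
      rw [he, pow_add]
      have := Nat.one_le_two_pow (n := μ)
      omega
    have hq4 : q % 4 = 3 := by
      have h5 : q % 4 = 1 ∨ q % 4 = 3 := by
        obtain ⟨k, hk⟩ := hqo
        omega
      rcases h5 with h5 | h5
      · rw [Nat.pow_mod, h5, one_pow] at h4
        norm_num at h4
      · exact h5
    refine ⟨hq, ?_, Nat.one_le_two_pow, fun q' hq' hd ν hν _ s hs hc => ?_⟩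
    · intro hd
      have := (Nat.prime_dvd_prime_iff_eq hq Nat.prime_two).1 (hq.dvd_of_dvd_pow hd)
      omega
    · have hq'2 := (Nat.prime_dvd_prime_iff_eq hq' Nat.prime_two).1 (hq'.dvd_of_dvd_pow hd)
      rw [hq'2] at hc
      have hq3' := eq_three hq4 hν hs hc
      apply h12
      rw [hq3']
      have h6 : 2 ^ 2 ∣ 2 ^ a := pow_dvd_pow 2 (hμ2.trans hμa)
      have h7 : 3 ^ 1 ∣ 3 ^ b := pow_dvd_pow 3 hb
      have h8 := mul_dvd_mul h6 h7
      norm_num at h8
      exact h8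

/-- the case `a = 1` -/
theorem generic_prime {p m : ℕ} (hp : p.Prime) (hpm : ¬ p ∣ m) (hm : 1 ≤ m)
    (h : p = 2 ∨ Odd m ∨ ∀ r : ℕ, p ≠ 2 ^ r + 1) : Generic p 1 m := by
  refine ⟨hp, hpm, hm, fun q hq hqm μ hμ hμ1 r hr hc => ?_⟩
  have hμe : μ = 1 := le_antisymm hμ1 hμ
  rw [hμe, pow_one] at hc
  have hqr : 2 ≤ q ^ r := hq.two_le.trans (Nat.le_self_pow (by omega) q)
  rcases h with rfl | h | h
  · omega
  · have h1 : Odd (q ^ r) := (Odd.of_dvd_nat h hqm).pow
    rcases hp.eq_two_or_odd' with rfl | ⟨k, hk⟩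
    · omega
    · rw [hc, hk, Nat.add_sub_cancel] at h1
      exact Nat.not_odd_iff_even.2 (even_two_mul k) h1
  · rcases hp.eq_two_or_odd' with rfl | ⟨k, hk⟩
    · omega
    · have h1 : 2 ∣ q ^ r := ⟨k, by omega⟩
      have h2 := (Nat.prime_dvd_prime_iff_eq Nat.prime_two hq).1 (Nat.prime_two.dvd_of_dvd_pow h1)
      apply h r
      rw [h2]
      omega

theorem generic_one {p a : ℕ} (hp : p.Prime) : Generic p a 1 :=
  ⟨hp, fun h => hp.one_lt.ne' (Nat.dvd_one.1 h), le_rfl, fun _ hq hd =>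
    absurd (Nat.dvd_one.1 hd) hq.one_lt.ne'⟩

/-- all exponents with at most two prime divisors which are not divisible by `12` are covered -/
theorem exists_generic {n : ℕ} (hn : 1 ≤ n) (h2 : n.primeFactors.card ≤ 2) (h12 : ¬ 12 ∣ n) :
    ∃ p a m : ℕ, n = p ^ a * m ∧ Generic p a m := by
  obtain ⟨p, q, a, b, hp, hq, rfl⟩ := two_primes n hn h2
  rcases Nat.eq_zero_or_pos b with rfl | hb
  · exact ⟨p, a, 1, by simp, generic_one hp⟩
  rcases Nat.eq_zero_or_pos a with rfl | ha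
  · exact ⟨q, b, 1, by simp, generic_one hq⟩
  by_cases hpq : p = q
  · subst hpq
    exact ⟨p, a + b, 1, by rw [pow_add, mul_one], generic_one hp⟩
  by_cases hp2 : p = 2
  · subst hp2
    rcases generic_two hq (fun h => hpq h.symm) hb h12 with h | h
    · exact ⟨2, a, q ^ b, rfl, h⟩
    · exact ⟨q, b, 2 ^ a, mul_comm _ _, h⟩
  by_cases hq2 : q = 2
  · subst hq2
    rcases generic_two hp hpq ha (by rwa [mul_comm]) with h | h
    · exact ⟨2, b, p ^ a, mul_comm _ _, h⟩
    · exact ⟨p, a, 2 ^ b, rfl, h⟩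
  · refine ⟨p, a, q ^ b, rfl, generic_odd hp hp2 ?_ (hq.odd_of_ne_two hq2).pow⟩
    intro hd
    exact hpq ((Nat.prime_dvd_prime_iff_eq hp hq).1 (hp.dvd_of_dvd_pow hd))

end Pool.Agent.R669.Nw
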