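import Pool.Agent.R669.SwF
import Pool.Agent.Y50.FE.Word

/-!
# Left 3-Engel elements of groups of exponent five, and the law `[g, z, z, z] = 1`

`left3`: a left 3-Engel element of a group of exponent five lies in the locally finite radical.
-/

set_option autoImplicit false

namespace Pool.Agent.R669.Sw

open Subgroup
open Pool.Agent.Y50.FE Pool.Agent.H32BU
open scoped commutatorElement

universe u

section

variable {G : Type u} [Group G] {X : Set G}

theorem HE.step (h5 : ∀ g : G, g ^ 5 = 1) (hX : Sys X) {r a x : G} (H : HE X r a) (hx : x ∈ X) :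
    HE X (k r x) a :=
  ⟨hX.kc _ H.mr _ hx, H.ma, H.h1 x hx, fun y hy => H.h2 x hx y hy,
    fun _ hy _ hz => H.three h5 hX hx hy hz⟩

theorem HE.all (h5 : ∀ g : G, g ^ 5 = 1) (hX : Sys X) {r a : G} (H : HE X r a) (l : List G)
    (hl : ∀ y ∈ l, y ∈ X) : Commute (cm r l) a := by
  induction l generalizing r with
  | nil => exact H.h0
  | cons x l ih =>
    exact ih (H.step h5 hX (hl x (by simp))) fun y hy => hl y (by simp [hy])

theorem Sys.he (h5 : ∀ g : G, g ^ 5 = 1) (hX : Sys X) {s a : G} (hs : s ∈ X) (ha : a ∈ X) :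
    HE X (k s a) a :=
  ⟨hX.kc _ hs _ ha, ha, (hX.sand.good hs a ha).2.symm,
    fun _ hx => k_eq_one.1 (hX.gap1 h5 hs ha hx),
    fun _ hx _ hy => k_eq_one.1 (hX.gap2 h5 hs ha hx hy)⟩

theorem cj_prod {a : G} (l : List G) : ∀ x : G, (∀ m : List G, (∀ y ∈ m, y ∈ X) →
    Commute (cm x m) a) → (∀ y ∈ l, y ∈ X) → Commute (cj x l.prod) a := by
  induction l with
  | nil =>
    intro x h _
    rw [List.prod_nil, cj_one]
    exact h [] (by simp)
  | cons y l ih =>
    intro x h hl
    have hy := hl y (by simp)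
    have hl' : ∀ z ∈ l, z ∈ X := fun z hz => hl z (by simp [hz])
    rw [List.prod_cons, ← cj_cj, cj_eq x y, cj_mul]
    refine (ih x h hl').mul_left (ih (k x y) (fun m hm => ?_) hl')
    exact h (y :: m) (by
      intro z hz
      rcases List.mem_cons.1 hz with rfl | hz
      · exact hy
      · exact hm z hz)

theorem Sys.cj_list (h5 : ∀ g : G, g ^ 5 = 1) (hX : Sys X) {a : G} (ha : a ∈ X) (l : List G)
    (hl : ∀ y ∈ l, y ∈ X) : Commute (cj a l.prod) a := by
  induction l with
  | nil =>
    rw [List.prod_nil, cj_one]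
  | cons y l ih =>
    have hy := hl y (by simp)
    have hl' : ∀ z ∈ l, z ∈ X := fun z hz => hl z (by simp [hz])
    rw [List.prod_cons, ← cj_cj, cj_eq a y, cj_mul]
    refine (ih hl').mul_left ?_
    rw [← k_inv, cj_inv]
    exact (cj_prod l (k y a) (fun m hm => (hX.he h5 hy ha).all h5 hX m hm) hl').inv_left

theorem clist (h5 : ∀ g : G, g ^ 5 = 1) {w : G} (hw : w ∈ closure X) :
    ∃ l : List G, (∀ y ∈ l, y ∈ X) ∧ l.prod = w := by
  induction hw using closure_induction with
  | mem x hx => exact ⟨[x], by simpa using hx, by simp⟩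
  | one => exact ⟨[], by simp, rfl⟩
  | mul x y _ _ ihx ihy =>
    obtain ⟨l, hl, rfl⟩ := ihx
    obtain ⟨m, hm, rfl⟩ := ihy
    refine ⟨l ++ m, ?_, List.prod_append⟩
    intro z hz
    rcases List.mem_append.1 hz with hz | hz
    · exact hl z hz
    · exact hm z hz
  | inv x _ ih =>
    obtain ⟨l, hl, rfl⟩ := ih
    refine ⟨l ++ l ++ l ++ l, ?_, ?_⟩
    · intro z hz
      simp only [List.mem_append, or_self] at hz
      exact hl z hz
    · rw [List.prod_append, List.prod_append, List.prod_append, eq_comm, inv_eq_iff_mul_eq_one,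
        ← h5 l.prod]
      simp only [pow_succ, pow_zero, one_mul, mul_assoc]

/-- in a sandwich system of a group of exponent five, each element commutes with its conjugates
under the subgroup generated by the system -/
theorem Sys.ab (h5 : ∀ g : G, g ^ 5 = 1) (hX : Sys X) {a w : G} (ha : a ∈ X)
    (hw : w ∈ closure X) : Commute (cj a w) a := by
  obtain ⟨l, hl, rfl⟩ := clist h5 hw
  exact hX.cj_list h5 ha l hl

end

section

variable {G : Type} [Group G] {X : Set G}

theorem Sys.lfs (h5 : ∀ g : G, g ^ 5 = 1) (hX : Sys X) : LFs (closure X) := by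
  rw [lfs_iff]
  set N := closure X with hN
  have n5 : ∀ g : N, g ^ 5 = 1 := fun g => Subtype.ext (h5 _)
  have h1 : ∀ a : G, ∀ ha : a ∈ X, (⟨a, subset_closure ha⟩ : N) ∈ Rd N := by
    intro a ha
    rw [mem_Rd]
    refine lemP n5 _ fun h => ?_
    rw [commutatorElement_eq_one_iff_mul_comm]
    have h2 := hX.ab h5 ha (inv_mem h.2)
    have h3 : Commute ((h : G) * a * (h : G)⁻¹ * a⁻¹) a := by
      refine Commute.mul_left ?_ (Commute.refl a).inv_left
      unfold cj at h2
      rwa [inv_inv] at h2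
    apply Subtype.ext
    exact h3.eq
  have h2 : Rd N = ⊤ := by
    rw [eq_top_iff, ← closure_closure_coe_preimage (k := X)]
    refine (closure_le _).2 ?_
    rintro ⟨a, ha'⟩ ha
    exact h1 a ha
  intro S
  refine LFs_Rd S ?_
  rw [h2]
  exact Set.subset_univ _

theorem left3_sand {z : G} (hz : ∀ g : G, ⁅⁅⁅g, z⁆, z⁆, z⁆ = 1) :
    Sand {x : G | ∃ g, x = cj z g} := by
  have h1 : ∀ g : G, Commute (g * z * g⁻¹) z → Commute (cj z g) z := by
    intro g h
    have := comm_cj h g
    have e : cj (g * z * g⁻¹) g = z := by unfold cj; group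
    rw [e] at this
    exact this.symm
  have h2 : ∀ g : G, Commute (k z (cj z g)) z := by
    intro g
    have h3 := hz g⁻¹
    rw [commutatorElement_eq_one_iff_mul_comm] at h3
    have h4 : ⁅⁅g⁻¹, z⁆, z⁆ = cj z g * z * (cj z g)⁻¹ * z⁻¹ := by
      rw [commutatorElement_def, commutatorElement_def]
      unfold cj
      group
    rw [h4] at h3
    have h5 : Commute (cj z g * z * (cj z g)⁻¹) z := by
      have h6 : Commute (cj z g * z * (cj z g)⁻¹ * z⁻¹) z := h3
      have h7 := h6.mul_left (Commute.refl z)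
      rwa [inv_mul_cancel_right] at h7
    have h6 := h1 _ h5
    rw [k_eq]
    exact ((Commute.refl z).inv_left).mul_left h6
  refine ⟨?_, ?_⟩
  · rintro _ ⟨g, rfl⟩ h
    exact ⟨g * h, cj_cj z g h⟩
  · rintro _ ⟨g, rfl⟩ _ ⟨h, rfl⟩
    have h3 := comm_cj (h2 (h * g⁻¹)) g
    rw [cj_k, cj_cj, inv_mul_cancel_right] at h3
    exact h3.symm

/-- a left 3-Engel element of a group of exponent five lies in the locally finite radical -/
theorem left3 (h5 : ∀ g : G, g ^ 5 = 1) {z : G} (hz : ∀ g : G, ⁅⁅⁅g, z⁆, z⁆, z⁆ = 1) :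
    LFs (normalClosure ({z} : Set G)) := by
  obtain ⟨Y, hXY, hY⟩ := (left3_sand hz).sys h5
  refine LFs.mono ?_ (hY.lfs h5)
  have hn : (closure Y).Normal := by
    refine ⟨fun x hx g => ?_⟩
    have h1 : ∀ x ∈ closure Y, ∀ g : G, cj x g ∈ closure Y := by
      intro x hx g
      induction hx using closure_induction with
      | mem x hx => exact subset_closure (hY.sand.cj x hx g)
      | one =>
        have : cj (1 : G) g = 1 := by simp [cj]
        rw [this]; exact one_mem _
      | mul x y _ _ ihx ihy => rw [cj_mul]; exact mul_mem ihx ihy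
      | inv x _ ih => rw [cj_inv]; exact inv_mem ih
    have := h1 x hx g⁻¹
    unfold cj at this
    rwa [inv_inv] at this
  refine normalClosure_le_normal ?_
  rw [Set.singleton_subset_iff]
  exact subset_closure (hXY ⟨1, (cj_one z).symm⟩)

/-- `[y, x, x, x]` -/
def e3 {G : Type u} [Group G] (x y : G) : G := ⁅⁅⁅y, x⁆, x⁆, x⁆

theorem map_e3 {G H : Type*} [Group G] [Group H] (f : G →* H) (x y : G) :
    f (e3 x y) = e3 (f x) (f y) := by
  simp only [e3, map_commutatorElement]

/-- `[g, z, z, z]` for `z = [y, x, x, x]` -/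
def w3 {G : Type u} [Group G] (x y g : G) : G := ⁅⁅⁅g, e3 x y⁆, e3 x y⁆, e3 x y⁆

theorem map_w3 {G H : Type*} [Group G] [Group H] (f : G →* H) (x y g : G) :
    f (w3 x y g) = w3 (f x) (f y) (f g) := by
  simp only [w3, map_commutatorElement, map_e3]

/-- a group of exponent five with the law `[g, z, z, z] = 1`, `z = [y, x, x, x]` is locally
finite -/
theorem lf_w3 (h5 : ∀ g : G, g ^ 5 = 1) (hw : ∀ x y g : G, w3 x y g = 1) : LF G := by
  have q5 : ∀ g : G ⧸ Rd G, g ^ 5 = 1 := by
    intro g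
    obtain ⟨g, rfl⟩ := QuotientGroup.mk_surjective g
    rw [← QuotientGroup.mk_pow, h5]
    rfl
  have qw : ∀ x y g : G ⧸ Rd G, w3 x y g = 1 := by
    intro x y g
    obtain ⟨x, rfl⟩ := QuotientGroup.mk'_surjective _ x
    obtain ⟨y, rfl⟩ := QuotientGroup.mk'_surjective _ y
    obtain ⟨g, rfl⟩ := QuotientGroup.mk'_surjective _ g
    rw [← map_w3, hw, map_one]
  have q3 : ∀ x y : G ⧸ Rd G, e3 x y = 1 := fun x y => Rd_quot _ (left3 q5 fun g => qw x y g)
  have T : ∀ x : G ⧸ Rd G, x = 1 := fun x => Rd_quot _ (left3 q5 fun g => q3 x g)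
  have hR : Rd G = ⊤ := by
    rw [eq_top_iff]
    rintro g -
    exact (QuotientGroup.eq_one_iff g).1 (T g)
  intro S
  refine LFs_Rd S ?_
  rw [hR]
  exact Set.subset_univ _

end

end Pool.Agent.R669.Sw
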