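import Mathlib
import Pool.Agent.R669.SwG

set_option autoImplicit false

/-!
# Exponent five: the word `[g, z, z, z]`, `z = [y, x, x, x]` (as in the earlier result `OneWordFive`)
-/

namespace Pool.Agent.R669.Nw

open scoped commutatorElement
open Subgroup Pool.Agent Pool.Agent.Y50.FE Pool.Agent.H32BU

universe u

/-- The commutator `[y, x, x, x]`, where `[a, b] = a b a⁻¹ b⁻¹`. -/
def eng3 {G : Type u} [Group G] (x y : G) : G := ⁅⁅⁅y, x⁆, x⁆, x⁆

theorem lemB_u {G : Type u} [Group G] (h5 : ∀ g : G, g ^ 5 = 1) (x y g : G)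
    (hf : Finite (closure ({x, y, g} : Set G))) :
    ⁅⁅⁅g, eng3 x y⁆, eng3 x y⁆, eng3 x y⁆ = 1 := by
  have m0 : x ∈ closure ({x, y, g} : Set G) := subset_closure (by simp)
  have m1 : y ∈ closure ({x, y, g} : Set G) := subset_closure (by simp)
  have m2 : g ∈ closure ({x, y, g} : Set G) := subset_closure (by simp)
  let s : ℕ → closure ({x, y, g} : Set G) :=
    fun e => if e = 0 then ⟨x, m0⟩ else if e = 1 then ⟨y, m1⟩ else ⟨g, m2⟩
  have hs : closure ({s 0, s 1, s 2} : Set (closure ({x, y, g} : Set G))) = ⊤ := by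
    rw [← closure_closure_coe_preimage]
    congr 1
    ext x
    obtain ⟨x, hx⟩ := x
    simp [s, Subtype.ext_iff]
  have h1 := lemB (fun g => Subtype.ext (h5 _)) s hs
  exact congrArg Subtype.val h1

theorem lf_iff (G : Type u) [Group G] (h5 : ∀ x : G, x ^ 5 = 1) :
    (∀ S : Set G, S.Finite → Finite (Subgroup.closure S)) ↔
      ∀ x y g : G, ⁅⁅⁅g, eng3 x y⁆, eng3 x y⁆, eng3 x y⁆ = 1 := by
  constructor
  · intro h x y g
    exact lemB_u h5 x y g (h _ (Set.toFinite _))
  · intro h S hS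
    refine W629.finite_closure_u S hS fun Q _ f hf => ?_
    refine R669.Sw.lf_w3 (fun g => hf (by rw [map_pow, map_one]; exact h5 _)) fun x y g => hf ?_
    rw [R669.Sw.map_w3, map_one]
    exact h _ _ _

end Pool.Agent.R669.Nw
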