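import Pool.Agent.H32BU.TSCH
import Pool.Agent.H32BU.TLFS
import Pool.Agent.H32BU.TLFD
import Pool.Agent.H32BU.Fin
import Pool.Agent.W629.TwiceLF

/-!
# The locally finite radical and elements which commute with their conjugates

(The construction of the radical follows `Pool.Agent.Y50.FE.Main`.)
-/

set_option autoImplicit false

namespace Pool.Agent.R669

open Subgroup
open scoped commutatorElement
open Pool.Agent.H32BU

section
variable {G : Type} [Group G]

/-- locally finite subgroup -/
def LFs (A : Subgroup G) : Prop := ∀ S : Finset G, (S : Set G) ⊆ A → Finite (closure (S : Set G))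

theorem LFs.mono {A B : Subgroup G} (h : A ≤ B) (hB : LFs B) : LFs A :=
  fun S hS => hB S (hS.trans h)

theorem lfs_iff (A : Subgroup G) : LFs A ↔ LF A := by
  classical
  constructor
  · intro h S
    have h1 := h (S.image Subtype.val) (by
      intro x hx
      rw [Finset.coe_image] at hx
      obtain ⟨y, -, rfl⟩ := hx
      exact y.2)
    have h2 : closure ((S.image Subtype.val : Finset G) : Set G) =
        (closure (S : Set A)).map A.subtype := by
      rw [MonoidHom.map_closure, Finset.coe_image]; rfl
    rw [h2] at h1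
    have h3 : (A.subtype '' (closure (S : Set A) : Set A)).Finite := by
      rw [← Subgroup.coe_map]
      exact Set.toFinite _
    exact (Set.Finite.of_finite_image h3 A.subtype_injective.injOn).to_subtype
  · intro h S hS
    have h1 := h (S.subtype (fun x => x ∈ A))
    have h2 : closure (S : Set G) =
        (closure ((S.subtype (fun x => x ∈ A) : Finset A) : Set A)).map A.subtype := by
      rw [MonoidHom.map_closure]
      congr 1
      ext x
      simp only [Set.mem_image, Finset.mem_coe, Finset.mem_subtype]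
      constructor
      · intro hx
        exact ⟨⟨x, hS hx⟩, hx, rfl⟩
      · rintro ⟨y, hy, rfl⟩
        exact hy
    rw [h2]
    have h3 : ((closure ((S.subtype (fun x => x ∈ A) : Finset A) : Set A)).map A.subtype :
        Set G).Finite := by
      rw [Subgroup.coe_map]
      exact Set.Finite.image _ (Set.toFinite _)
    exact h3.to_subtype

theorem LFs.sup {A B : Subgroup G} (hA : A.Normal) (hB : B.Normal) (h1 : LFs A) (h2 : LFs B) :
    LFs (A ⊔ B) :=
  (lfs_iff _).2 ((t_LFS t_SCH).2.2 G A B hA hB ((lfs_iff _).1 h1) ((lfs_iff _).1 h2))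

theorem LFs.bot : LFs (⊥ : Subgroup G) := by
  intro S hS
  have : closure (S : Set G) ≤ ⊥ := (closure_le _).2 hS
  rw [le_bot_iff.1 this]
  infer_instance

/-- the locally finite radical -/
def Rd (G : Type) [Group G] : Subgroup G where
  carrier := {g | LFs (normalClosure ({g} : Set G))}
  one_mem' := by
    change LFs (normalClosure ({1} : Set G))
    refine LFs.mono ?_ LFs.bot
    exact normalClosure_le_normal (by simp)
  mul_mem' := by
    intro a b ha hb
    refine LFs.mono ?_ (LFs.sup normalClosure_normal normalClosure_normal ha hb)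
    refine normalClosure_le_normal ?_
    rw [Set.singleton_subset_iff]
    exact mul_mem (le_sup_left (a := normalClosure ({a} : Set G)) (b := normalClosure {b})
      (subset_normalClosure rfl)) (le_sup_right (a := normalClosure ({a} : Set G))
      (b := normalClosure {b}) (subset_normalClosure rfl))
  inv_mem' := by
    intro a ha
    refine LFs.mono ?_ ha
    refine normalClosure_le_normal ?_
    rw [Set.singleton_subset_iff]
    exact inv_mem (subset_normalClosure rfl)

theorem mem_Rd (g : G) : g ∈ Rd G ↔ LFs (normalClosure ({g} : Set G)) := Iff.rfl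

instance Rd_normal : (Rd G).Normal := by
  refine ⟨fun a ha g => ?_⟩
  rw [mem_Rd] at *
  refine LFs.mono ?_ ha
  refine normalClosure_le_normal ?_
  rw [Set.singleton_subset_iff]
  exact normalClosure_normal.conj_mem a (subset_normalClosure (Set.mem_singleton a)) g

theorem LFs_Rd : LFs (Rd G) := by
  classical
  intro S hS
  have h : ∃ N : Subgroup G, N.Normal ∧ LFs N ∧ (S : Set G) ⊆ N := by
    induction S using Finset.induction_on with
    | empty => exact ⟨⊥, inferInstance, LFs.bot, by simp⟩
    | insert a S _ ih =>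
      rw [Finset.coe_insert, Set.insert_subset_iff] at hS
      obtain ⟨N, hN, h1, h2⟩ := ih hS.2
      refine ⟨normalClosure ({a} : Set G) ⊔ N, sup_normal _ _,
        LFs.sup normalClosure_normal hN hS.1 h1, ?_⟩
      rw [Finset.coe_insert, Set.insert_subset_iff]
      exact ⟨le_sup_left (a := normalClosure ({a} : Set G)) (b := N) (subset_normalClosure rfl),
        h2.trans (le_sup_right (a := normalClosure ({a} : Set G)) (b := N))⟩
  obtain ⟨N, -, h1, h2⟩ := h
  exact h1 S h2

theorem Rd_quot (c : G ⧸ Rd G) (hc : LFs (normalClosure ({c} : Set (G ⧸ Rd G)))) : c = 1 := by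
  obtain ⟨g, rfl⟩ := QuotientGroup.mk_surjective c
  set π : G →* G ⧸ Rd G := QuotientGroup.mk' (Rd G) with hπ
  set C := normalClosure ({(g : G ⧸ Rd G)} : Set (G ⧸ Rd G)) with hC
  have hCn : C.Normal := normalClosure_normal
  set N := C.comap π with hN
  have hNn : N.Normal := hCn.comap π
  have hRN : Rd G ≤ N := by
    intro x hx
    have h1 : π x = 1 := (QuotientGroup.eq_one_iff x).2 hx
    change π x ∈ C
    rw [h1]
    exact one_mem _
  have hLN : LF N := by
    have hn : ((Rd G).subgroupOf N).Normal := inferInstance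
    refine t_SCH N ((Rd G).subgroupOf N) ?_ ?_
    · refine TLFS.sub _ ↥(Rd G)
        { toFun := fun x => ⟨((x : N) : G), x.2⟩
          map_one' := rfl
          map_mul' := fun _ _ => rfl } ?_ ((lfs_iff _).1 LFs_Rd)
      intro x y hxy
      have : ((x : N) : G) = ((y : N) : G) := congrArg (fun z : ↥(Rd G) => (z : G)) hxy
      exact Subtype.ext (Subtype.ext this)
    · let f : N →* C := (π.comp N.subtype).codRestrict C (fun x => x.2)
      have hker : (Rd G).subgroupOf N ≤ f.ker := by
        intro x hx
        rw [MonoidHom.mem_ker]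
        exact Subtype.ext ((QuotientGroup.eq_one_iff (x : G)).2 hx)
      refine TLFS.sub _ C (QuotientGroup.lift _ f hker) ?_ ((lfs_iff _).1 hc)
      rw [injective_iff_map_eq_one]
      intro x hx
      obtain ⟨y, rfl⟩ := QuotientGroup.mk_surjective x
      rw [QuotientGroup.eq_one_iff]
      have h2 : f y = 1 := hx
      have h3 : π (y : G) = 1 := congrArg Subtype.val h2
      exact (QuotientGroup.eq_one_iff (y : G)).1 h3
  have hg : g ∈ N := by
    change π g ∈ C
    exact subset_normalClosure rfl
  refine (QuotientGroup.eq_one_iff g).2 ?_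
  rw [mem_Rd]
  refine LFs.mono ?_ ((lfs_iff _).2 hLN)
  exact normalClosure_le_normal (by rwa [Set.singleton_subset_iff])

/-- an element which commutes with its conjugates lies in the radical -/
theorem lf_of_comm (hp : ∀ g : G, IsOfFinOrder g) (c : G)
    (h1 : ∀ h : G, Commute c (h * c * h⁻¹)) :
    LFs (normalClosure ({c} : Set G)) := by
  have h2 : ∀ x ∈ Group.conjugatesOfSet ({c} : Set G), ∀ y ∈ Group.conjugatesOfSet ({c} : Set G),
      x * y = y * x := by
    intro x hx y hy
    simp only [Group.mem_conjugatesOfSet_iff, Set.mem_singleton_iff, exists_eq_left,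
      isConj_iff] at hx hy
    obtain ⟨g, rfl⟩ := hx
    obtain ⟨h, rfl⟩ := hy
    have h3 := (h1 (h⁻¹ * g)).eq
    calc g * c * g⁻¹ * (h * c * h⁻¹) = h * ((h⁻¹ * g * c * (h⁻¹ * g)⁻¹) * c) * h⁻¹ := by group
      _ = h * (c * (h⁻¹ * g * c * (h⁻¹ * g)⁻¹)) * h⁻¹ := by rw [h3]
      _ = h * c * h⁻¹ * (g * c * g⁻¹) := by group
  have hcm : ∀ x ∈ normalClosure ({c} : Set G), ∀ y ∈ normalClosure ({c} : Set G),
      x * y = y * x := by
    intro x hx y hy
    letI := closureCommGroupOfComm (k := Group.conjugatesOfSet ({c} : Set G)) h2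
    have h4 : (⟨x, hx⟩ : closure (Group.conjugatesOfSet ({c} : Set G))) * ⟨y, hy⟩ =
      ⟨y, hy⟩ * ⟨x, hx⟩ := mul_comm _ _
    exact congrArg Subtype.val h4
  intro S hS
  have h3 : ∀ x ∈ (S : Set G), ∀ y ∈ (S : Set G), x * y = y * x :=
    fun x hx y hy => hcm x (hS hx) y (hS hy)
  letI := closureCommGroupOfComm h3
  have hfg : Group.FG (closure (S : Set G)) := by
    rw [Group.fg_iff_subgroup_fg]
    exact ⟨S, rfl⟩
  refine CommGroup.finite_of_fg_isMulTorsion _ ?_
  intro x
  exact Submonoid.isOfFinOrder_coe.1 (hp x)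

end

/-! ### The words `w_m` -/

universe u

/-- `w_0 = g 0`, `w_(i+1) = [w_i, g w_i g⁻¹]` with `g = g (i + 1)` -/
def word {G : Type u} [Group G] (g : ℕ → G) : ℕ → G
  | 0 => g 0
  | i + 1 => ⁅word g i, g (i + 1) * word g i * (g (i + 1))⁻¹⁆

theorem word_congr {G : Type u} [Group G] (g h : ℕ → G) (m : ℕ) (e : ∀ i ≤ m, g i = h i) :
    word g m = word h m := by
  induction m with
  | zero => exact e 0 le_rfl
  | succ m ih =>
    rw [word, word, ih fun i hi => e i (by omega), e (m + 1) le_rfl]

theorem map_word {G H : Type*} [Group G] [Group H] (f : G →* H) (g : ℕ → G) (m : ℕ) :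
    f (word g m) = word (fun i => f (g i)) m := by
  induction m with
  | zero => rfl
  | succ m ih => rw [word, word, map_commutatorElement, map_mul, map_mul, map_inv, ih]

theorem word_mem {G : Type u} [Group G] (S : Subgroup G) (g : ℕ → G) (m : ℕ)
    (h : ∀ i ≤ m, g i ∈ S) : word g m ∈ S := by
  induction m with
  | zero => exact h 0 le_rfl
  | succ m ih =>
    have h1 := ih fun i hi => h i (by omega)
    have h2 := h (m + 1) le_rfl
    have h3 := mul_mem (mul_mem h2 h1) (inv_mem h2)
    rw [word, commutatorElement_def]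
    exact mul_mem (mul_mem (mul_mem h1 h3) (inv_mem h1)) (inv_mem h3)

/-- if `w_m` is a law and no nontrivial element commutes with its conjugates, the group is
trivial -/
theorem trivial_of_word {G : Type u} [Group G] (hq : ∀ c : G, (∀ h : G, Commute c (h * c * h⁻¹)) →
    c = 1) (m : ℕ) (h : ∀ g : ℕ → G, word g m = 1) (x : G) : x = 1 := by
  induction m with
  | zero => exact h fun _ => x
  | succ m ih =>
    refine ih fun g => hq _ fun y => ?_
    have h1 := h (Function.update g (m + 1) y)
    rw [word, word_congr (Function.update g (m + 1) y) g m fun i hi =>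
      Function.update_of_ne (by omega) _ _, Function.update_self] at h1
    exact commutatorElement_eq_one_iff_commute.1 h1

/-- a periodic group with the law `w_m = 1` is locally finite -/
theorem lf_of_word {G : Type} [Group G] (hp : ∀ g : G, IsOfFinOrder g) (m : ℕ)
    (h : ∀ g : ℕ → G, word g m = 1) : LF G := by
  have hp' : ∀ g : G ⧸ Rd G, IsOfFinOrder g := by
    intro g
    obtain ⟨g, rfl⟩ := QuotientGroup.mk'_surjective _ g
    exact (QuotientGroup.mk' (Rd G)).isOfFinOrder (hp g)
  have h' : ∀ g : ℕ → G ⧸ Rd G, word g m = 1 := by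
    intro g
    choose f hf using fun i => QuotientGroup.mk'_surjective (Rd G) (g i)
    have e : g = fun i => QuotientGroup.mk' (Rd G) (f i) := funext fun i => (hf i).symm
    rw [e, ← map_word, h, map_one]
  have T : ∀ x : G ⧸ Rd G, x = 1 :=
    trivial_of_word (fun c hc => Rd_quot c (lf_of_comm hp' c hc)) m h'
  have hR : Rd G = ⊤ := by
    rw [eq_top_iff]
    rintro g -
    exact (QuotientGroup.eq_one_iff g).1 (T g)
  intro S
  refine LFs_Rd S ?_
  rw [hR]
  exact Set.subset_univ _

/-! ### Classes -/

theorem three (G : Type u) [Group G] (N H1 H2 H3 : Subgroup G) [N.Normal] (h1 : ⁅⁅H2, H3⁆, H1⁆ ≤ N)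
    (h2 : ⁅⁅H3, H1⁆, H2⁆ ≤ N) : ⁅⁅H1, H2⁆, H3⁆ ≤ N := by
  have key : ∀ X : Subgroup G, X ≤ N ↔ X.map (QuotientGroup.mk' N) = ⊥ := by
    intro X
    rw [Subgroup.map_eq_bot_iff, QuotientGroup.ker_mk']
  rw [key, Subgroup.map_commutator, Subgroup.map_commutator] at h1 h2 ⊢
  exact Subgroup.commutator_commutator_eq_bot_of_rotate h1 h2

theorem lcs_comm (G : Type u) [Group G] (j : ℕ) : ∀ i, ⁅(⊤ : Subgroup G).lowerCentralSeries i,
    (⊤ : Subgroup G).lowerCentralSeries j⁆ ≤ (⊤ : Subgroup G).lowerCentralSeries (i + j + 1) := by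
  induction j with
  | zero =>
    intro i
    rfl
  | succ j ih =>
    intro i
    rw [Subgroup.commutator_comm, Subgroup.lowerCentralSeries_succ]
    apply three
    · rw [Subgroup.commutator_comm ⊤, ← Subgroup.lowerCentralSeries_succ]
      refine (ih (i + 1)).trans (le_of_eq ?_)
      congr 1
      omega
    · have h1 := Subgroup.commutator_mono (ih i) (le_refl (⊤ : Subgroup G))
      rw [← Subgroup.lowerCentralSeries_succ] at h1
      refine h1.trans (le_of_eq ?_)
      congr 1

/-- `w_m` lies in the term `γ_(2^(m+1)-1)` of the lower central series -/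
theorem word_lcs {G : Type u} [Group G] (g : ℕ → G) (m : ℕ) :
    word g m ∈ (⊤ : Subgroup G).lowerCentralSeries (2 ^ (m + 1) - 2) := by
  induction m with
  | zero => exact mem_top _
  | succ m ih =>
    set y := word g m with hy
    set a := g (m + 1) with ha
    have h1 : word g (m + 1) = ⁅y, ⁅a, y⁆⁆ := by
      rw [word, ← hy, ← ha, commutatorElement_def, commutatorElement_def, commutatorElement_def]
      group
    have h2 : ⁅y, a⁆ ∈ (⊤ : Subgroup G).lowerCentralSeries (2 ^ (m + 1) - 2 + 1) :=
      commutator_mem_commutator ih (mem_top _)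
    have h3 : ⁅a, y⁆ ∈ (⊤ : Subgroup G).lowerCentralSeries (2 ^ (m + 1) - 2 + 1) := by
      rw [← commutatorElement_inv]
      exact inv_mem h2
    have h4 := lcs_comm G _ _ (commutator_mem_commutator ih h3)
    rw [h1]
    refine Subgroup.lowerCentralSeries_antitone _ ?_ h4
    have h5 : 2 ≤ 2 ^ (m + 1) := by
      calc 2 = 2 ^ 1 := rfl
        _ ≤ 2 ^ (m + 1) := Nat.pow_le_pow_right (by norm_num) (by omega)
    rw [pow_succ]
    omega

end Pool.Agent.R669
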