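import Mathlib

/-!
# Sandwich sets in groups of exponent five: the three-element case

`k x y = x⁻¹ y⁻¹ x y` and `cj x y = y⁻¹ x y`.  A sandwich set is a set `X`, invariant under
conjugation, such that any two elements of `X` generate a group of class at most two.
-/

set_option autoImplicit false

namespace Pool.Agent.R669.Sw

universe u

variable {G : Type u} [Group G]

/-- the commutator `x⁻¹ y⁻¹ x y` -/
def k (x y : G) : G := x⁻¹ * y⁻¹ * x * y

/-- the conjugate `y⁻¹ x y` -/
def cj (x y : G) : G := y⁻¹ * x * y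

theorem cj_eq (x y : G) : cj x y = x * k x y := by unfold cj k; group

theorem k_eq (x y : G) : k x y = x⁻¹ * cj x y := by unfold cj k; group

theorem k_inv (x y : G) : (k x y)⁻¹ = k y x := by unfold k; group

theorem cj_mul (x y g : G) : cj (x * y) g = cj x g * cj y g := by unfold cj; group

theorem cj_inv (x g : G) : cj x⁻¹ g = (cj x g)⁻¹ := by unfold cj; group

theorem cj_pow (x g : G) (n : ℕ) : cj (x ^ n) g = (cj x g) ^ n := by
  induction n with
  | zero => simp [cj]
  | succ n ih => rw [pow_succ, pow_succ, cj_mul, ih]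

theorem cj_cj (x g h : G) : cj (cj x g) h = cj x (g * h) := by unfold cj; group

theorem cj_one (x : G) : cj x 1 = x := by simp [cj]

theorem cj_k (x y g : G) : cj (k x y) g = k (cj x g) (cj y g) := by unfold cj k; group

theorem cj_of_comm {x g : G} (h : Commute x g) : cj x g = x := by
  unfold cj
  rw [mul_assoc, h.eq, inv_mul_cancel_left]

theorem comm_of_cj {x g : G} (h : cj x g = x) : Commute x g := by
  unfold cj at h
  have h1 : x * g = g * x := by
    calc x * g = g * (g⁻¹ * x * g) := by group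
      _ = g * x := by rw [h]
  exact h1

theorem comm_cj {x y : G} (h : Commute x y) (g : G) : Commute (cj x g) (cj y g) := by
  have h1 : cj (x * y) g = cj (y * x) g := by rw [h.eq]
  rw [cj_mul, cj_mul] at h1
  exact h1

theorem comm_cj_iff {x y : G} (g : G) : Commute (cj x g) (cj y g) ↔ Commute x y := by
  refine ⟨fun h => ?_, fun h => comm_cj h g⟩
  have := comm_cj h g⁻¹
  rwa [cj_cj, cj_cj, mul_inv_cancel, cj_one, cj_one] at this

theorem k_eq_one {x y : G} : k x y = 1 ↔ Commute x y := by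
  constructor
  · intro h
    apply comm_of_cj
    rw [cj_eq, h, mul_one]
  · intro h
    rw [k_eq, cj_of_comm h, inv_mul_cancel]

theorem k_mul_left (x y z : G) : k (x * y) z = cj (k x z) y * k y z := by unfold cj k; group

theorem k_mul_right (x y z : G) : k x (y * z) = k x z * cj (k x y) z := by unfold cj k; group

/-- sandwich sets -/
structure Sand (X : Set G) : Prop where
  cj : ∀ x ∈ X, ∀ g, cj x g ∈ X
  two : ∀ x ∈ X, ∀ y ∈ X, Commute x (k x y)

/-- elements which generate a group of class at most two with each element of `X` -/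
def Good (X : Set G) (s : G) : Prop := ∀ y ∈ X, Commute s (k s y) ∧ Commute y (k s y)

theorem Sand.good {X : Set G} (hX : Sand X) {s : G} (hs : s ∈ X) : Good X s := by
  intro y hy
  refine ⟨hX.two s hs y hy, ?_⟩
  rw [← k_inv]
  exact (hX.two y hy s hs).inv_right

theorem Good.cj {X : Set G} (hX : Sand X) {s : G} (hs : Good X s) (g : G) : Good X (cj s g) := by
  intro y hy
  have h := hs (Sw.cj y g⁻¹) (hX.cj y hy _)
  have e1 : Sw.cj (Sw.cj y g⁻¹) g = y := by rw [cj_cj, inv_mul_cancel, cj_one]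
  have e2 : Sw.cj (k s (Sw.cj y g⁻¹)) g = k (Sw.cj s g) y := by rw [cj_k, e1]
  refine ⟨?_, ?_⟩
  · have := comm_cj h.1 g
    rwa [e2] at this
  · have := comm_cj h.2 g
    rwa [e2, e1] at this

/-- the powers of `y` act linearly -/
theorem Good.cj_pow {X : Set G} {s y : G} (hs : Good X s) (hy : y ∈ X) (n : ℕ) :
    Sw.cj s (y ^ n) = s * (k s y) ^ n := by
  induction n with
  | zero => simp [Sw.cj]
  | succ n ih =>
    rw [pow_succ, ← cj_cj, ih, cj_mul, cj_eq s y, Sw.cj_pow, cj_of_comm (hs y hy).2.symm,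
      pow_succ', mul_assoc]

theorem sq_comm {x y : G} (h5 : ∀ g : G, g ^ 5 = 1) (h : Commute (x ^ 2) y) : Commute x y := by
  have h1 : (x ^ 2) ^ 3 = x := by
    rw [← pow_mul]
    calc x ^ (2 * 3) = x ^ 5 * x := by rw [← pow_succ]
      _ = x := by rw [h5, one_mul]
  rw [← h1]
  exact h.pow_left 3

/-- the first step -/
theorem L1 (h5 : ∀ g : G, g ^ 5 = 1) {X : Set G} (hX : Sand X) {s a z : G} (hs : Good X s)
    (hz : Commute z a) (hy : ∀ i : ℕ, a * z ^ i ∈ X) :
    Commute z (k s a) ∧ Commute (k s z) a ∧ Commute (k s z) s ∧ Commute (k s z) z := by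
  have ha : a ∈ X := by simpa using hy 0
  set u := k s a with hu
  have us : Commute s u := (hs a ha).1
  have ua : Commute a u := (hs a ha).2
  have z5 : z ^ 5 = 1 := h5 z
  -- the element `S2`
  set S2 := cj s (z ^ 2) with hS2
  have gS2 : Good X S2 := hs.cj hX _
  have csa : cj s a = s * u := cj_eq s a
  have csa2 : cj s (a ^ 2) = s * u ^ 2 := hs.cj_pow ha 2
  have hzn : ∀ m n : ℕ, Commute (z ^ m) (a ^ n) := fun m n => (hz.pow_pow m n)
  have e3 : z ^ 2 * (a * z ^ 3) = a := by
    rw [← mul_assoc, (hz.pow_left 2).eq, mul_assoc, ← pow_add, z5, mul_one]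
  have e4 : z ^ 2 * (a * z ^ 4) = a * z := by
    rw [← mul_assoc, (hz.pow_left 2).eq, mul_assoc, ← pow_add, show 2 + 4 = 5 + 1 from rfl,
      pow_add, z5, one_mul, pow_one]
  have e5 : z ^ 2 * (a * z ^ 4) ^ 2 = a ^ 2 := by
    have h1 : (a * z ^ 4) ^ 2 = a ^ 2 * z ^ 8 := by
      rw [((hz.pow_left 4).symm).mul_pow, ← pow_mul]
    rw [h1, ← mul_assoc, (hzn 2 2).eq, mul_assoc, ← pow_add, show 2 + 8 = 5 * 2 from rfl, pow_mul,
      z5, one_pow, mul_one]
  have e6 : (a * z) ^ 2 = a ^ 2 * z ^ 2 := hz.symm.mul_pow 2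
  have hyz : a * z ∈ X := by simpa using hy 1
  -- `S2` commutes with `s u` and `s u ^ 2`
  have c1 : Commute S2 (s * u) := by
    have h1 : Sw.cj S2 (a * z ^ 3) = s * u := by rw [hS2, cj_cj, e3, csa]
    rw [← h1, cj_eq]
    exact (Commute.refl _).mul_right (gS2 _ (hy 3)).1
  have c2 : Commute S2 (s * u ^ 2) := by
    have h1 : Sw.cj S2 ((a * z ^ 4) ^ 2) = s * u ^ 2 := by rw [hS2, cj_cj, e5, csa2]
    rw [← h1, gS2.cj_pow (hy 4)]
    exact (Commute.refl _).mul_right ((gS2 _ (hy 4)).1.pow_right 2)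
  have c3 : Commute S2 u := by
    have h1 : (s * u)⁻¹ * (s * u ^ 2) = u := by group
    rw [← h1]
    exact c1.inv_right.mul_right c2
  have c4 : Commute S2 s := by
    have h1 : s * u * u⁻¹ = s := by group
    rw [← h1]
    exact c1.mul_right c3.inv_right
  -- the parallelogram
  have q1 : s * cj s ((a * z) ^ 2) = (cj s (a * z)) ^ 2 := by
    rw [hs.cj_pow hyz, cj_eq, ((hs _ hyz).1).mul_pow, pow_two s, mul_assoc]
  have q2 : S2 * cj S2 ((a * z ^ 4) ^ 2) = (cj S2 (a * z ^ 4)) ^ 2 := by
    rw [gS2.cj_pow (hy 4), cj_eq, ((gS2 _ (hy 4)).1).mul_pow, pow_two S2, mul_assoc]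
  have q3 : cj S2 (a * z ^ 4) = cj s (a * z) := by rw [hS2, cj_cj, e4]
  have q4 : cj S2 ((a * z ^ 4) ^ 2) = s * u ^ 2 := by rw [hS2, cj_cj, e5, csa2]
  have q5 : cj s ((a * z) ^ 2) = S2 * (cj u (z ^ 2)) ^ 2 := by
    rw [e6, ← cj_cj, csa2, cj_mul, Sw.cj_pow]
  have q6 : s * (S2 * (cj u (z ^ 2)) ^ 2) = S2 * (s * u ^ 2) := by
    rw [← q5, q1, ← q3, ← q2, q4]
  have q7 : (cj u (z ^ 2)) ^ 2 = u ^ 2 := by
    rw [← mul_assoc, ← mul_assoc, c4.eq] at q6
    exact mul_left_cancel q6
  have uz2 : Commute u (z ^ 2) := by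
    refine sq_comm h5 (comm_of_cj ?_)
    rw [Sw.cj_pow]
    exact q7
  have uz : Commute z u := sq_comm h5 uz2.symm
  -- the element `cj s z`
  have csz : cj s (a * z) = cj s z * u := by
    rw [← cj_cj, csa, cj_mul, cj_of_comm uz.symm]
  have d1 : Commute s (cj s z) := by
    have h1 : Commute s (cj s z * u) := by
      rw [← csz, cj_eq]
      exact (Commute.refl _).mul_right (hs _ hyz).1
    have h2 : cj s z * u * u⁻¹ = cj s z := by group
    rw [← h2]
    exact h1.mul_right us.inv_right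
  have d2 : Commute (cj s z) u := by
    have := comm_cj us z
    rwa [cj_of_comm uz.symm] at this
  set v := k s z with hv
  have hv' : v = s⁻¹ * cj s z := k_eq s z
  have vs : Commute v s := by
    rw [hv']
    exact ((Commute.refl s).inv_left).mul_left d1.symm
  have vu : Commute v u := by
    rw [hv']
    exact (us.inv_left).mul_left d2
  have va : Commute v a := by
    apply comm_of_cj
    have h1 : cj (cj s z) a = cj s z * u := by rw [cj_cj, hz.eq, csz]
    calc cj v a = (cj s a)⁻¹ * cj (cj s z) a := by rw [hv', cj_mul, cj_inv]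
      _ = u⁻¹ * (s⁻¹ * cj s z) * u := by rw [csa, h1]; group
      _ = u⁻¹ * v * u := by rw [← hv']
      _ = v := by rw [mul_assoc, vu.eq, inv_mul_cancel_left]
  have vz : Commute v z := by
    apply comm_of_cj
    have h1 : cj s z = s * v := cj_eq s z
    have h2 : S2 = s * v * cj v z := by
      rw [hS2, pow_two, ← cj_cj, h1, cj_mul, h1]
    have h3 : s * (S2 * u ^ 2) = (s * v * u) ^ 2 := by
      have : cj u (z ^ 2) = u := cj_of_comm uz2
      rw [← h1, ← csz, ← q1, q5, this]
    have h4 : (s * v * u) ^ 2 = s * (s * v * v * u ^ 2) := by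
      have e1 : Commute (s * v) u := us.mul_left vu
      rw [e1.mul_pow, vs.symm.mul_pow, pow_two, pow_two]
      group
    rw [h4] at h3
    have h5' := mul_left_cancel h3
    have h6 : S2 = s * v * v := mul_right_cancel h5'
    rw [h2] at h6
    exact mul_left_cancel h6
  exact ⟨uz, va, vs, vz⟩

end Pool.Agent.R669.Sw
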