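import Pool.Agent.R669.SwB
import Pool.Agent.Y50.FE.MN

/-!
# Sandwich systems: sandwich sets closed under commutators
-/

set_option autoImplicit false

namespace Pool.Agent.R669.Sw

universe u

variable {G : Type u} [Group G]

theorem comm_k {w x y : G} (h1 : Commute w x) (h2 : Commute w y) : Commute w (k x y) := by
  unfold k
  exact ((h1.inv_right.mul_right h2.inv_right).mul_right h1).mul_right h2

theorem k_inv_left {x y : G} (h : Commute x (k x y)) : k x⁻¹ y = (k x y)⁻¹ := by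
  rw [k_eq x⁻¹, cj_inv, cj_eq, mul_inv_rev, inv_inv]
  rw [← mul_assoc, (h.inv_right).eq, mul_inv_cancel_right]

/-- a sandwich system -/
structure Sys (X : Set G) : Prop where
  sand : Sand X
  kc : ∀ x ∈ X, ∀ y ∈ X, k x y ∈ X

/-- the next stage -/
def Nx (X : Set G) : Set G := {g | g ∈ X ∨ ∃ x ∈ X, ∃ y ∈ X, g = k x y}

theorem good_k (h5 : ∀ g : G, g ^ 5 = 1) {X : Set G} (hX : Sand X) {a b : G} (ha : a ∈ X)
    (hb : b ∈ X) : Good X (k a b) := by
  intro y hy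
  have V := lemV h5 hX (hX.good ha) hb hy
  refine ⟨?_, V.pd.symm⟩
  exact (comm_k V.ps V.pa).symm

theorem Sand.next (h5 : ∀ g : G, g ^ 5 = 1) {X : Set G} (hX : Sand X) : Sand (Nx X) := by
  refine ⟨?_, ?_⟩
  · rintro x (hx | ⟨a, ha, b, hb, rfl⟩) g
    · exact Or.inl (hX.cj x hx g)
    · exact Or.inr ⟨Sw.cj a g, hX.cj a ha g, Sw.cj b g, hX.cj b hb g, cj_k a b g⟩
  · rintro x (hx | ⟨a, ha, b, hb, rfl⟩) y (hy | ⟨c, hc, d, hd, rfl⟩)
    · exact hX.two x hx y hy
    · exact (lemV h5 hX (hX.good hx) hc hd).vs.symm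
    · exact ((good_k h5 hX ha hb) y hy).1
    · exact (lemV h5 hX (good_k h5 hX ha hb) hc hd).vs.symm

/-- the stages -/
def St (X : Set G) : ℕ → Set G
  | 0 => X
  | n + 1 => Nx (St X n)

theorem St.sand (h5 : ∀ g : G, g ^ 5 = 1) {X : Set G} (hX : Sand X) (n : ℕ) : Sand (St X n) := by
  induction n with
  | zero => exact hX
  | succ n ih => exact ih.next h5

theorem St.mono (X : Set G) {m n : ℕ} (h : m ≤ n) : St X m ⊆ St X n := by
  induction n with
  | zero =>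
    obtain rfl : m = 0 := by omega
    exact fun x hx => hx
  | succ n ih =>
    rcases Nat.lt_or_ge m (n + 1) with h1 | h1
    · exact fun x hx => Or.inl (ih (by omega) hx)
    · obtain rfl : m = n + 1 := by omega
      exact fun x hx => hx

theorem Sand.sys (h5 : ∀ g : G, g ^ 5 = 1) {X : Set G} (hX : Sand X) :
    ∃ Y : Set G, X ⊆ Y ∧ Sys Y := by
  refine ⟨{g | ∃ n, g ∈ St X n}, fun x hx => ⟨0, hx⟩, ⟨⟨?_, ?_⟩, ?_⟩⟩
  · rintro x ⟨n, hx⟩ g
    exact ⟨n, (St.sand h5 hX n).cj x hx g⟩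
  · rintro x ⟨m, hx⟩ y ⟨n, hy⟩
    exact (St.sand h5 hX (max m n)).two x (St.mono X (le_max_left m n) hx) y
      (St.mono X (le_max_right m n) hy)
  · rintro x ⟨m, hx⟩ y ⟨n, hy⟩
    exact ⟨max m n + 1, Or.inr ⟨x, St.mono X (le_max_left m n) hx, y,
      St.mono X (le_max_right m n) hy, rfl⟩⟩

/-- left-normed commutators -/
def cm (s : G) (l : List G) : G := l.foldl k s

theorem cm_nil (s : G) : cm s [] = s := rfl

theorem cm_cons (s x : G) (l : List G) : cm s (x :: l) = cm (k s x) l := rfl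

theorem cm_append (s : G) (l m : List G) : cm s (l ++ m) = cm (cm s l) m := by
  unfold cm
  rw [List.foldl_append]

theorem cm_one (l : List G) : cm 1 l = 1 := by
  induction l with
  | nil => rfl
  | cons x l ih =>
    rw [cm_cons]
    have : k 1 x = 1 := by simp [k]
    rw [this, ih]

section sys

variable {X : Set G}

theorem Sys.v (h5 : ∀ g : G, g ^ 5 = 1) (hX : Sys X) {s a d : G} (hs : s ∈ X) (ha : a ∈ X)
    (hd : d ∈ X) : Vc s a d := lemV h5 hX.sand (hX.sand.good hs) ha hd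

theorem Sys.cm (hX : Sys X) {s : G} (hs : s ∈ X) {l : List G} (hl : ∀ x ∈ l, x ∈ X) :
    cm s l ∈ X := by
  induction l generalizing s with
  | nil => exact hs
  | cons x l ih =>
    exact ih (hX.kc s hs x (hl x (by simp))) fun y hy => hl y (by simp [hy])

theorem Sys.cm_inv (hX : Sys X) {s : G} (hs : s ∈ X) {l : List G} (hl : ∀ x ∈ l, x ∈ X) :
    Sw.cm s⁻¹ l = (Sw.cm s l)⁻¹ := by
  induction l generalizing s with
  | nil => rfl
  | cons x l ih =>
    have hx := hl x (by simp)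
    rw [cm_cons, cm_cons, k_inv_left (hX.sand.two s hs x hx),
      ih (hX.kc s hs x hx) fun y hy => hl y (by simp [hy])]

theorem Sys.gap0 (hX : Sys X) {s a : G} (hs : s ∈ X) (ha : a ∈ X) : k (k s a) a = 1 := by
  rw [k_eq_one]
  exact ((hX.sand.good hs) a ha).2.symm

theorem Sys.gapl (hX : Sys X) {s a : G} (hs : s ∈ X) (ha : a ∈ X) : k (k s a) s = 1 := by
  rw [k_eq_one]
  exact (hX.sand.two s hs a ha).symm

theorem Sys.gap1 (h5 : ∀ g : G, g ^ 5 = 1) (hX : Sys X) {s a b : G} (hs : s ∈ X) (ha : a ∈ X)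
    (hb : b ∈ X) : k (k (k s a) b) a = 1 :=
  k_eq_one.2 (hX.v h5 hs ha hb).pa

theorem Sys.gap1l (h5 : ∀ g : G, g ^ 5 = 1) (hX : Sys X) {s a b : G} (hs : s ∈ X) (ha : a ∈ X)
    (hb : b ∈ X) : k (k (k s a) b) s = 1 :=
  k_eq_one.2 (hX.v h5 hs ha hb).ps

/-- swapping the last two entries -/
theorem Sys.swap (h5 : ∀ g : G, g ^ 5 = 1) (hX : Sys X) {s a d : G} (hs : s ∈ X) (ha : a ∈ X)
    (hd : d ∈ X) : k (k s a) d = k (k s d) a * k s (k a d) := by
  have V := hX.v h5 hs ha hd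
  rw [V.eq]
  exact (comm_k (comm_k V.vs V.vd) V.va).eq

theorem k_mul_of {x y z : G} (h1 : Commute (k x z) y) : k (x * y) z = k x z * k y z := by
  rw [k_mul_left, cj_of_comm h1]

/-- the element `[p, x, q, r, x]` -/
def D (p x q r : G) : G := k (k (k (k p x) q) r) x

theorem Sys.D_swap (h5 : ∀ g : G, g ^ 5 = 1) (hX : Sys X) {p x q r : G} (hp : p ∈ X)
    (hx : x ∈ X) (hq : q ∈ X) (hr : r ∈ X) : D p x q r = D p x r q := by
  have hpx := hX.kc p hp x hx
  have V := hX.v h5 hpx hq hr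
  unfold D
  rw [hX.swap h5 hpx hq hr]
  have hqr := hX.kc q hq r hr
  have e1 : Commute (k (k p x) (k q r)) x := k_eq_one.1 (hX.gap1 h5 hp hx hqr)
  have e2 : Commute (k (k p x) (k q r)) (k (k (k p x) r) q) :=
    comm_k (comm_k V.vs V.vd) V.va
  rw [k_mul_of (comm_k e2 e1).symm, k_eq_one.2 e1, mul_one]

theorem Sys.D1 (h5 : ∀ g : G, g ^ 5 = 1) (hX : Sys X) {p x q r : G} (hp : p ∈ X)
    (hx : x ∈ X) (hq : q ∈ X) (hr : r ∈ X) :
    Commute (D p x q r) x ∧ Commute (D p x q r) q ∧ Commute (D p x q r) r := by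
  have h1 := hX.v h5 (hX.kc _ (hX.kc p hp x hx) q hq) hr hx
  have h2 := hX.v h5 (hX.kc _ (hX.kc p hp x hx) r hr) hq hx
  refine ⟨h1.pd, ?_, h1.pa⟩
  rw [hX.D_swap h5 hp hx hq hr]
  exact h2.pa

/-- `[p, x, q] = [q, x, p] [p, q, x]` -/
theorem Sys.jac (h5 : ∀ g : G, g ^ 5 = 1) (hX : Sys X) {p x q : G} (hp : p ∈ X)
    (hx : x ∈ X) (hq : q ∈ X) : k (k p x) q = k (k q x) p * k (k p q) x := by
  have V := hX.v h5 hp hx hq
  rw [V.eq]
  congr 1
  have h1 : k (k x q) p = (k (k q x) p)⁻¹ := by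
    have h2 := (hX.sand.two _ (hX.kc q hq x hx) p hp)
    rw [← k_inv_left h2, k_inv]
  rw [← k_inv, h1, inv_inv]

theorem Sys.D2 (h5 : ∀ g : G, g ^ 5 = 1) (hX : Sys X) {p x q r : G} (hp : p ∈ X)
    (hx : x ∈ X) (hq : q ∈ X) (hr : r ∈ X) : D p x q r = D q x p r := by
  have hD := hX.D1 h5 hp hx hq hr
  have hD' := hX.D1 h5 hq hx hp hr
  have V := hX.v h5 hp hq hx
  set Y := k (k p q) x with hY
  set Z := k (k q x) p with hZ
  have Yx : Commute Y x := V.pd
  have Yp : Commute Y p := V.ps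
  have Yq : Commute Y q := V.pa
  have e0 : D p x q r = k (k (Z * Y) r) x := by
    unfold D
    rw [hX.jac h5 hp hx hq]
  have e1 : k (k Y r) x = 1 := hX.gap1 h5 (hX.kc p hp q hq) hx hr
  have e2 : k (Z * Y) r = cj (k Z r) Y * k Y r := k_mul_left _ _ _
  have e3 : k (cj (k Z r) Y) x = cj (D q x p r) Y := by
    unfold D
    rw [cj_k (k (k (k q x) p) r) x Y, cj_of_comm Yx.symm]
  have e4 : D p x q r = cj (D q x p r) (cj Y r) := by
    rw [e0, e2, k_mul_left, e1, mul_one, e3, cj_cj, cj_eq Y r]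
  have e5 : D p x q r = cj (D q x p r) Y := by
    have h1 : cj (D q x p r) (cj Y r) = cj (cj (D q x p r) Y) r := by
      calc cj (D q x p r) (cj Y r) = cj (cj (cj (D q x p r) r⁻¹) Y) r := by
            rw [cj_cj, cj_cj]
            congr 1
            unfold cj
            group
        _ = _ := by rw [cj_of_comm hD'.2.2.inv_right]
    rw [h1] at e4
    have h2 := congrArg (fun g => cj g r⁻¹) e4
    simp only [cj_cj _ r r⁻¹, mul_inv_cancel, cj_one] at h2
    rwa [cj_of_comm hD.2.2.inv_right] at h2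
  have e6 : cj (D p x q r) Y⁻¹ = D q x p r := by
    rw [e5, cj_cj, mul_inv_cancel, cj_one]
  have e7 : Commute (D q x p r) q := by
    rw [← e6]
    have := comm_cj hD.2.1 Y⁻¹
    rwa [cj_of_comm Yq.symm.inv_right] at this
  have e8 : Commute (D q x p r) Y := comm_k (comm_k hD'.2.1 e7) hD'.1
  rw [e5, cj_of_comm e8]

/-- `[p, x, q, r, x]` commutes with `p`, `x`, `q` and `r` -/
theorem Sys.D_comm (h5 : ∀ g : G, g ^ 5 = 1) (hX : Sys X) {p x q r : G} (hp : p ∈ X)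
    (hx : x ∈ X) (hq : q ∈ X) (hr : r ∈ X) :
    Commute (D p x q r) p ∧ Commute (D p x q r) x ∧ Commute (D p x q r) q ∧
      Commute (D p x q r) r := by
  refine ⟨?_, hX.D1 h5 hp hx hq hr⟩
  rw [hX.D2 h5 hp hx hq hr]
  exact (hX.D1 h5 hq hx hp hr).2.1

end sys

end Pool.Agent.R669.Sw
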