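import Pool.Agent.R669.SwC
import Pool.Agent.Y50.FE.E4

/-!
# Sandwich systems in groups of exponent five: `[p, x, q, r, x] = 1`
-/

set_option autoImplicit false

namespace Pool.Agent.R669.Sw

open Subgroup
open Pool.Agent.Y50.FE
open scoped commutatorElement

universe u v

theorem map_k {G : Type u} {H : Type v} [Group G] [Group H] (f : G →* H) (x y : G) :
    f (k x y) = k (f x) (f y) := by
  simp [k]

theorem map_cm {G : Type u} {H : Type v} [Group G] [Group H] (f : G →* H) (s : G) (l : List G) :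
    f (cm s l) = cm (f s) (l.map f) := by
  induction l generalizing s with
  | nil => rfl
  | cons x l ih => rw [cm_cons, ih, map_k, List.map_cons, cm_cons]

/-- if the left-normed commutators of weight `n + 1` in the generators vanish, then the term `n` of
the lower central series vanishes -/
theorem lcs_bot (n : ℕ) : ∀ (Γ : Type u) [Group Γ] (Y : Set Γ), closure Y = ⊤ →
    (∀ s ∈ Y, ∀ l : List Γ, (∀ y ∈ l, y ∈ Y) → l.length = n → cm s l = 1) →
    BurnLie.lcs Γ n = ⊥ := by
  induction n with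
  | zero =>
    intro Γ _ Y hY h
    change (⊤ : Subgroup Γ) = ⊥
    rw [← hY, eq_bot_iff, closure_le]
    intro s hs
    have := h s hs [] (by simp) rfl
    rw [cm_nil] at this
    rw [this]
    exact one_mem _
  | succ n ih =>
    intro Γ _ Y hY h
    have h1 : BurnLie.lcs (Γ ⧸ center Γ) n = ⊥ := by
      refine ih _ ((QuotientGroup.mk' (center Γ)) '' Y) ?_ ?_
      · rw [← MonoidHom.map_closure, hY, ← MonoidHom.range_eq_map]
        exact MonoidHom.range_eq_top.2 (QuotientGroup.mk'_surjective _)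
      · rintro _ ⟨s, hs, rfl⟩ l hl hn
        have h2 : ∃ m : List Γ, (∀ y ∈ m, y ∈ Y) ∧ m.map (QuotientGroup.mk' (center Γ)) = l := by
          clear hn
          induction l with
          | nil => exact ⟨[], by simp, rfl⟩
          | cons x l ihl =>
            obtain ⟨m, hm, rfl⟩ := ihl fun y hy => hl y (by simp [hy])
            obtain ⟨x, hx, rfl⟩ := hl x (by simp)
            refine ⟨x :: m, ?_, rfl⟩
            intro y hy
            rcases List.mem_cons.1 hy with rfl | hy
            · exact hx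
            · exact hm y hy
        obtain ⟨m, hm, rfl⟩ := h2
        rw [List.length_map] at hn
        rw [← map_cm, ← MonoidHom.mem_ker, QuotientGroup.ker_mk', mem_center_iff]
        have h3 : ∀ y ∈ Y, Commute (cm s m) y := by
          intro y hy
          rw [← k_eq_one]
          have := h s hs (m ++ [y]) (by
            intro z hz
            rcases List.mem_append.1 hz with hz | hz
            · exact hm z hz
            · rw [List.mem_singleton] at hz
              rw [hz]; exact hy) (by simp [hn])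
          rw [cm_append] at this
          exact this
        intro g
        have h4 : g ∈ closure Y := by rw [hY]; exact mem_top g
        have h5 : g ∈ centralizer {cm s m} := by
          refine (closure_le (centralizer {cm s m})).2 ?_ h4
          intro y hy
          rw [SetLike.mem_coe, mem_centralizer_singleton_iff]
          exact (h3 y hy).symm.eq
        exact mem_centralizer_singleton_iff.1 h5
    have h2 : BurnLie.lcs Γ n ≤ center Γ := by
      have h3 : (BurnLie.lcs Γ n).map (QuotientGroup.mk' (center Γ)) ≤ ⊥ := by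
        rw [← h1]
        exact Subgroup.lowerCentralSeries.map (QuotientGroup.mk' (center Γ)) n
      rw [Subgroup.map_le_iff_le_comap, MonoidHom.comap_bot, QuotientGroup.ker_mk'] at h3
      exact h3
    rw [eq_bot_iff, BurnLie.lcs, Subgroup.lowerCentralSeries_succ, commutator_le]
    intro x hx y _
    rw [mem_bot, commutatorElement_eq_one_iff_mul_comm]
    exact ((mem_center_iff.1 (h2 hx)) y).symm

theorem pig {α : Type u} (f : Fin 4 → α) (y : Fin 5 → α) (h : ∀ j, y j ∈ Set.range f) :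
    ∃ i j, i ≠ j ∧ y i = y j := by
  choose g hg using h
  obtain ⟨i, j, hij, he⟩ := Fintype.exists_ne_map_eq_of_card_lt g (by simp)
  exact ⟨i, j, hij, by rw [← hg i, ← hg j, he]⟩

theorem pig' {α : Type u} (f : Fin 4 → α) (y0 y1 y2 y3 y4 : α) (h0 : y0 ∈ Set.range f)
    (h1 : y1 ∈ Set.range f) (h2 : y2 ∈ Set.range f) (h3 : y3 ∈ Set.range f)
    (h4 : y4 ∈ Set.range f) (a1 : y1 ≠ y0) (a2 : y2 ≠ y0) (a3 : y2 ≠ y1) (a4 : y3 ≠ y0)
    (a5 : y3 ≠ y1) (a6 : y3 ≠ y2) : y4 = y0 ∨ y4 = y1 ∨ y4 = y2 ∨ y4 = y3 := by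
  obtain ⟨i, j, hij, he⟩ := pig f ![y0, y1, y2, y3, y4] (by
    intro j
    fin_cases j <;> assumption)
  by_contra hcon
  push Not at hcon
  obtain ⟨b0, b1, b2, b3⟩ := hcon
  fin_cases i <;> fin_cases j <;> simp at hij he
  all_goals first
    | exact a1 he | exact a1 he.symm | exact a2 he | exact a2 he.symm | exact a3 he
    | exact a3 he.symm | exact a4 he | exact a4 he.symm | exact a5 he | exact a5 he.symm
    | exact a6 he | exact a6 he.symm | exact b0 he | exact b0 he.symm | exact b1 he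
    | exact b1 he.symm | exact b2 he | exact b2 he.symm | exact b3 he | exact b3 he.symm

section

variable {G : Type u} [Group G] {X : Set G}

theorem k_one_left (x : G) : k 1 x = 1 := by simp [k]

theorem k_self (x : G) : k x x = 1 := by simp [k]

theorem lcs_D (h5 : ∀ g : G, g ^ 5 = 1) (hX : Sys X) (f : Fin 4 → G) (hf : ∀ i, f i ∈ X)
    (htop : closure (Set.range f) = ⊤) : BurnLie.lcs G 5 = ⊥ := by
  refine lcs_bot 5 G (Set.range f) htop ?_
  intro y0 m0 l hl hlen
  have hm : ∀ y ∈ Set.range f, y ∈ X := by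
    rintro _ ⟨i, rfl⟩
    exact hf i
  match l, hl, hlen with
  | [y1, y2, y3, y4, y5], hl, _ =>
    have m1 := hl y1 (by simp)
    have m2 := hl y2 (by simp)
    have m3 := hl y3 (by simp)
    have m4 := hl y4 (by simp)
    have m5 := hl y5 (by simp)
    have x0 := hm y0 m0
    have x1 := hm y1 m1
    have x2 := hm y2 m2
    have x3 := hm y3 m3
    have x4 := hm y4 m4
    have x5 := hm y5 m5
    have e : cm y0 [y1, y2, y3, y4, y5] = k (k (k (k (k y0 y1) y2) y3) y4) y5 := rfl
    rw [e]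
    by_cases a1 : y1 = y0
    · rw [a1, k_self]; simp only [k_one_left]
    by_cases a2 : y2 = y0
    · rw [a2, hX.gapl x0 x1]; simp only [k_one_left]
    by_cases a3 : y2 = y1
    · rw [a3, hX.gap0 x0 x1]; simp only [k_one_left]
    by_cases a4 : y3 = y0
    · rw [a4, hX.gap1l h5 x0 x1 x2]; simp only [k_one_left]
    by_cases a5 : y3 = y1
    · rw [a5, hX.gap1 h5 x0 x1 x2]; simp only [k_one_left]
    by_cases a6 : y3 = y2
    · rw [a6, hX.gap0 (hX.kc _ x0 _ x1) x2]; simp only [k_one_left]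
    have x01 := hX.kc _ x0 _ x1
    have x012 := hX.kc _ x01 _ x2
    rcases pig' f y0 y1 y2 y3 y4 m0 m1 m2 m3 m4 a1 a2 a3 a4 a5 a6 with h | h | h | h
    · rw [h, k_eq_one]
      have hD := hX.D_comm h5 x1 x0 x2 x3
      have e1 : k (k (k (k y0 y1) y2) y3) y0 = (D y1 y0 y2 y3)⁻¹ := by
        have h1 := hX.cm_inv (hX.kc _ x1 _ x0) (l := [y2, y3, y0]) (by
          intro z hz
          simp only [List.mem_cons, List.not_mem_nil, or_false] at hz
          rcases hz with rfl | rfl | rfl <;> assumption)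
        rw [k_inv] at h1
        exact h1
      rw [e1]
      rcases pig' f y0 y1 y2 y3 y5 m0 m1 m2 m3 m5 a1 a2 a3 a4 a5 a6 with g | g | g | g <;> rw [g]
      · exact hD.2.1.inv_left
      · exact hD.1.inv_left
      · exact hD.2.2.1.inv_left
      · exact hD.2.2.2.inv_left
    · rw [h, k_eq_one]
      have hD := hX.D_comm h5 x0 x1 x2 x3
      rcases pig' f y0 y1 y2 y3 y5 m0 m1 m2 m3 m5 a1 a2 a3 a4 a5 a6 with g | g | g | g <;> rw [g]
      · exact hD.1
      · exact hD.2.1
      · exact hD.2.2.1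
      · exact hD.2.2.2
    · rw [h, hX.gap1 h5 x01 x2 x3]; simp only [k_one_left]
    · rw [h, hX.gap0 x012 x3]; simp only [k_one_left]

theorem cls_k (F : NS G) {i j : ℕ} (hi : 1 ≤ i) (hj : 1 ≤ j) {g h : G} (hg : g ∈ F.H i)
    (hh : h ∈ F.H j) : ⁅cls F i g, cls F j h⁆ = cls F (i + j) (k g h) ∧ k g h ∈ F.H (i + j) := by
  have h1 := cls_lie F hi hj (inv_mem hg) (inv_mem hh)
  have e : ⁅g⁻¹, h⁻¹⁆ = k g h := by
    rw [commutatorElement_def, inv_inv, inv_inv]
    rfl
  rw [cls_inv F hi hg, cls_inv F hj hh, e, neg_lie, lie_neg, neg_neg] at h1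
  refine ⟨h1, ?_⟩
  rw [← e]
  exact F.comm (inv_mem hg) (inv_mem hh)

theorem D_one_top (h5 : ∀ g : G, g ^ 5 = 1) (hX : Sys X) {p x q r : G} (hp : p ∈ X)
    (hx : x ∈ X) (hq : q ∈ X) (hr : r ∈ X) (htop : closure (Set.range ![p, x, q, r]) = ⊤) :
    D p x q r = 1 := by
  have hl := lcs_D h5 hX ![p, x, q, r] (by
    intro i
    fin_cases i <;> assumption) htop
  let F : NS G := cns G 1 le_rfl
  have hF1 : ∀ g : G, g ∈ F.H 1 := fun g => mem_top g
  have br : ∀ a b c d e : G, ⁅⁅⁅⁅cls F 1 a, cls F 1 b⁆, cls F 1 c⁆, cls F 1 d⁆, cls F 1 e⁆ =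
      cls F 5 (k (k (k (k a b) c) d) e) := by
    intro a b c d e
    obtain ⟨e1, m1⟩ := cls_k F le_rfl le_rfl (hF1 a) (hF1 b)
    obtain ⟨e2, m2⟩ := cls_k F (by omega) le_rfl m1 (hF1 c)
    obtain ⟨e3, m3⟩ := cls_k F (by omega) le_rfl m2 (hF1 d)
    obtain ⟨e4, m4⟩ := cls_k F (by omega) le_rfl m3 (hF1 e)
    rw [e1, e2, e3, e4]
  have h := engel4 F h5 (m := 1) (n := fun _ => 1) le_rfl (fun _ => le_rfl)
    (a := ![x, x, q, r]) (fun j => hF1 _) (hF1 p)
  simp only [Matrix.cons_val_zero, Matrix.cons_val_one, Matrix.cons_val] at h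
  unfold S4 S3 S2 at h
  simp only [br] at h
  have z0 : ∀ {s a : G}, s ∈ X → a ∈ X → k (k s a) a = 1 := fun h1 h2 => hX.gap0 h1 h2
  have z1 : ∀ {s a b : G}, s ∈ X → a ∈ X → b ∈ X → k (k (k s a) b) a = 1 :=
    fun h1 h2 h3 => hX.gap1 h5 h1 h2 h3
  have px := hX.kc _ hp _ hx
  have pq := hX.kc _ hp _ hq
  have pr := hX.kc _ hp _ hr
  have pqr := hX.kc _ pq _ hr
  have prq := hX.kc _ pr _ hq
  have e1 : k (k (k (k p x) r) q) x = D p x q r := (hX.D_swap h5 hp hx hq hr).symm
  have e2 : k (k (k (k p x) q) r) x = D p x q r := rfl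
  rw [z0 hp hx, z1 hp hx hq, z1 hp hx hr, z0 pq hx, z0 pr hx, z1 pq hx hr, z1 pr hx hq,
    z0 pqr hx, z0 prq hx, e1, e2] at h
  simp only [k_one_left, cls_one, add_zero, zero_add] at h
  have h5' := five_smul F h5 (cls F 5 (D p x q r))
  have h6 : cls F 5 (D p x q r) = 0 := by
    have : cls F 5 (D p x q r) = 5 • cls F 5 (D p x q r) -
      (cls F 5 (D p x q r) + cls F 5 (D p x q r) +
        (cls F 5 (D p x q r) + cls F 5 (D p x q r))) := by abel
    rw [this, h5', h, sub_zero]
  have hm : D p x q r ∈ F.H 5 := by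
    obtain ⟨e1, m1⟩ := cls_k F le_rfl le_rfl (hF1 p) (hF1 x)
    obtain ⟨e2, m2⟩ := cls_k F (by omega) le_rfl m1 (hF1 q)
    obtain ⟨e3, m3⟩ := cls_k F (by omega) le_rfl m2 (hF1 r)
    obtain ⟨e4, m4⟩ := cls_k F (by omega) le_rfl m3 (hF1 x)
    exact m4
  have h7 := mem_of_cls F (by omega) hm h6
  have h8 : F.H (5 + 1) = BurnLie.lcs G 5 := rfl
  rw [h8, hl, mem_bot] at h7
  exact h7

end

end Pool.Agent.R669.Sw
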