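import Pool.Agent.R669.SwD

/-!
# Sandwich systems in groups of exponent five: longer commutators
-/

set_option autoImplicit false

namespace Pool.Agent.R669.Sw

open Subgroup

universe u v

/-- the linear computation -/
theorem lin {M : Type v} [AddCommGroup M] (h5 : ∀ m : M, 5 • m = 0) (A B C E : M →+ M)
    (r b c d bc bd cb cd db dc bcd bdc cbd cdb dbc dcb D : M)
    (Ar : A r = r) (Br : B r = r + b) (Cr : C r = r + c) (Er : E r = r + d)
    (Ab : A b = b) (Bb : B b = b) (Cb : C b = b + bc) (Eb : E b = b + bd)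
    (Ac : A c = c) (Bc : B c = c + cb) (Cc : C c = c) (Ec : E c = c + cd)
    (Ad : A d = d) (Bd : B d = d + db) (Cd : C d = d + dc) (Ed : E d = d)
    (Abc : A bc = bc) (Bbc : B bc = bc) (Cbc : C bc = bc) (Ebc : E bc = bc + bcd)
    (Abd : A bd = bd) (Bbd : B bd = bd) (Cbd : C bd = bd + bdc) (Ebd : E bd = bd)
    (Acb : A cb = cb) (Bcb : B cb = cb) (Ccb : C cb = cb) (Ecb : E cb = cb + cbd)
    (Acd : A cd = cd) (Bcd : B cd = cd + cdb) (Ccd : C cd = cd) (Ecd : E cd = cd)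
    (Adb : A db = db) (Bdb : B db = db) (Cdb : C db = db + dbc) (Edb : E db = db)
    (Adc : A dc = dc) (Bdc : B dc = dc + dcb) (Cdc : C dc = dc) (Edc : E dc = dc)
    (A1 : A bcd = bcd + D) (B1 : B bcd = bcd) (C1 : C bcd = bcd) (E1 : E bcd = bcd)
    (A2 : A bdc = bdc + D) (B2 : B bdc = bdc) (C2 : C bdc = bdc) (E2 : E bdc = bdc)
    (A3 : A cbd = cbd + D) (B3 : B cbd = cbd) (C3 : C cbd = cbd) (E3 : E cbd = cbd)
    (A4 : A cdb = cdb + D) (B4 : B cdb = cdb) (C4 : C cdb = cdb) (E4 : E cdb = cdb)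
    (A5 : A dbc = dbc + D) (B5 : B dbc = dbc) (C5 : C dbc = dbc) (E5 : E dbc = dbc)
    (A6 : A dcb = dcb + D) (B6 : B dcb = dcb) (C6 : C dcb = dcb) (E6 : E dcb = dcb)
    (AD : A D = D) (BD : B D = D) (CD : C D = D) (ED : E D = D)
    (K : M →+ M) (hK : ∀ m, K m = E (C (B (A m))))
    (hs : K (K (K (K r))) + K (K (K r)) + K (K r) + K r + r = 0) : D = 0 := by
  have kr : K r = r + (b + c + d + bc + bd + cd + bcd) := by
    rw [hK, Ar, Br, map_add, Cr, Cb, map_add, map_add, map_add, Er, Ec, Eb, Ebc]; abel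
  have kb : K b = b + (bc + bd + bcd) := by
    rw [hK, Ab, Bb, Cb, map_add, Eb, Ebc]; abel
  have kc : K c = c + (cb + cd + cbd) := by
    rw [hK, Ac, Bc, map_add, Cc, Ccb, map_add, Ec, Ecb]; abel
  have kd : K d = d + (db + dc + dbc) := by
    rw [hK, Ad, Bd, map_add, Cd, Cdb, map_add, map_add, map_add, Ed, Edc, Edb, E5]; abel
  have kbc : K bc = bc + bcd := by rw [hK, Abc, Bbc, Cbc, Ebc]
  have kbd : K bd = bd + bdc := by rw [hK, Abd, Bbd, Cbd, map_add, Ebd, E2]
  have kcb : K cb = cb + cbd := by rw [hK, Acb, Bcb, Ccb, Ecb]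
  have kcd : K cd = cd + cdb := by rw [hK, Acd, Bcd, map_add, Ccd, C4, map_add, Ecd, E4]
  have kdb : K db = db + dbc := by rw [hK, Adb, Bdb, Cdb, map_add, Edb, E5]
  have kdc : K dc = dc + dcb := by rw [hK, Adc, Bdc, map_add, Cdc, C6, map_add, Edc, E6]
  have k1 : K bcd = bcd + D := by rw [hK, A1, map_add, B1, BD, map_add, C1, CD, map_add, E1, ED]
  have k2 : K bdc = bdc + D := by rw [hK, A2, map_add, B2, BD, map_add, C2, CD, map_add, E2, ED]
  have k3 : K cbd = cbd + D := by rw [hK, A3, map_add, B3, BD, map_add, C3, CD, map_add, E3, ED]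
  have k4 : K cdb = cdb + D := by rw [hK, A4, map_add, B4, BD, map_add, C4, CD, map_add, E4, ED]
  have k5 : K dbc = dbc + D := by rw [hK, A5, map_add, B5, BD, map_add, C5, CD, map_add, E5, ED]
  have k6 : K dcb = dcb + D := by rw [hK, A6, map_add, B6, BD, map_add, C6, CD, map_add, E6, ED]
  have kD : K D = D := by rw [hK, AD, BD, CD, ED]
  simp only [kr, kb, kc, kd, kbc, kbd, kcb, kcd, kdb, kdc, k1, k2, k3, k4, k5, k6, kD,
    map_add] at hs
  have key : 5 • (r + 2 • (b + c + d + bc + bd + cd + bcd) +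
      2 • ((bc + bd + bcd) + (cb + cd + cbd) + (db + dc + dbc) + (bcd + bdc + cdb) + D) +
      ((bcd + bdc + cbd + cdb + dbc + dcb) + 6 • D) + D) + D = 0 := by
    rw [← hs]
    abel
  rwa [h5, zero_add] at key

section

variable {G : Type u} [Group G] {X : Set G}

theorem coe_k {H : Subgroup G} (a b : H) : ((k a b : H) : G) = k (a : G) (b : G) :=
  map_k H.subtype a b

theorem coe_cj {H : Subgroup G} (a b : H) : ((cj a b : H) : G) = cj (a : G) (b : G) := rfl

theorem Sys.sub (hX : Sys X) (H : Subgroup G) : Sys {g : H | (g : G) ∈ X} where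
  sand := by
    refine ⟨fun x hx g => ?_, fun x hx y hy => ?_⟩
    · exact hX.sand.cj x hx g
    · have h := hX.sand.two x hx y hy
      rw [← coe_k] at h
      exact Subtype.ext h.eq
  kc := by
    intro x hx y hy
    have h := hX.kc x hx y hy
    rw [← coe_k] at h
    exact h

theorem Sys.gap2 (h5 : ∀ g : G, g ^ 5 = 1) (hX : Sys X) {p x q r : G} (hp : p ∈ X)
    (hx : x ∈ X) (hq : q ∈ X) (hr : r ∈ X) : k (k (k (k p x) q) r) x = 1 := by
  set Γ : Subgroup G := closure (Set.range ![p, x, q, r]) with hΓ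
  have mp : p ∈ Γ := subset_closure ⟨0, rfl⟩
  have mx : x ∈ Γ := subset_closure ⟨1, rfl⟩
  have mq : q ∈ Γ := subset_closure ⟨2, rfl⟩
  have mr : r ∈ Γ := subset_closure ⟨3, rfl⟩
  have htop : closure (Set.range ![(⟨p, mp⟩ : Γ), ⟨x, mx⟩, ⟨q, mq⟩, ⟨r, mr⟩]) = ⊤ := by
    rw [← closure_closure_coe_preimage (k := Set.range ![p, x, q, r])]
    congr 1
    ext ⟨g, hg⟩
    simp only [Set.mem_range, Set.mem_preimage]
    constructor
    · rintro ⟨i, hi⟩
      refine ⟨i, ?_⟩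
      have h1 := congrArg Subtype.val hi
      refine Eq.trans ?_ h1
      fin_cases i <;> rfl
    · rintro ⟨i, hi⟩
      refine ⟨i, ?_⟩
      apply Subtype.ext
      change _ = g
      rw [← hi]
      fin_cases i <;> rfl
  have h := D_one_top (G := Γ) (fun g => Subtype.ext (h5 g.1)) (hX.sub Γ) (p := ⟨p, mp⟩)
    (x := ⟨x, mx⟩) (q := ⟨q, mq⟩) (r := ⟨r, mr⟩) hp hx hq hr htop
  have h1 := congrArg Subtype.val h
  unfold D at h1
  rw [coe_k, coe_k, coe_k, coe_k] at h1
  exact h1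

/-- `[r, x, y, z]` commutes with `r` -/
theorem Sys.r3 (h5 : ∀ g : G, g ^ 5 = 1) (hX : Sys X) {r x y z : G} (hr : r ∈ X)
    (hx : x ∈ X) (hy : y ∈ X) (hz : z ∈ X) : Commute (k (k (k r x) y) z) r := by
  have h1 := hX.gap2 h5 hx hr hy hz
  have h2 := hX.cm_inv (hX.kc _ hx _ hr) (l := [y, z]) (by
    intro w hw
    simp only [List.mem_cons, List.not_mem_nil, or_false] at hw
    rcases hw with rfl | rfl <;> assumption)
  rw [k_inv] at h2
  have h3 : k (k (k r x) y) z = (k (k (k x r) y) z)⁻¹ := h2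
  rw [h3]
  exact (k_eq_one.1 h1).inv_left

/-- the hypotheses on `r` and `a` -/
structure HE (X : Set G) (r a : G) : Prop where
  mr : r ∈ X
  ma : a ∈ X
  h0 : Commute r a
  h1 : ∀ x ∈ X, Commute (k r x) a
  h2 : ∀ x ∈ X, ∀ y ∈ X, Commute (k (k r x) y) a

theorem HE.swap2 (h5 : ∀ g : G, g ^ 5 = 1) (hX : Sys X) {r a x y z : G} (H : HE X r a)
    (hx : x ∈ X) (hy : y ∈ X) (hz : z ∈ X) :
    k (k (k (k r x) y) z) a = k (k (k (k r x) z) y) a := by
  have hs := hX.kc _ H.mr _ hx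
  have V := hX.v h5 hs hy hz
  rw [hX.swap h5 hs hy hz]
  have e1 : Commute (k (k r x) (k y z)) a := H.h2 x hx _ (hX.kc _ hy _ hz)
  have e2 : Commute (k (k r x) (k y z)) (k (k (k r x) z) y) :=
    comm_k (comm_k V.vs V.vd) V.va
  rw [k_mul_of (comm_k e2 e1).symm, k_eq_one.2 e1, mul_one]

theorem HE.swap1 (h5 : ∀ g : G, g ^ 5 = 1) (hX : Sys X) {r a x y z : G} (H : HE X r a)
    (hx : x ∈ X) (hy : y ∈ X) (hz : z ∈ X) :
    k (k (k (k r x) y) z) a = k (k (k (k r y) x) z) a := by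
  have hr := H.mr
  have hq := hX.kc _ hx _ hy
  have hry := hX.kc _ hr _ hy
  rw [hX.swap h5 hr hx hy]
  set q := k x y with hqd
  set W := k (k (k r y) x) z with hW
  have Wr : Commute W r := hX.r3 h5 hr hy hx hz
  have Wx : Commute W x := k_eq_one.1 (hX.gap1 h5 hry hx hz)
  have Wy : Commute W y := k_eq_one.1 (hX.gap2 h5 hr hy hx hz)
  have Wz : Commute W z := k_eq_one.1 (hX.gap0 (hX.kc _ hry _ hx) hz)
  have Wq : Commute W q := comm_k Wx Wy
  have WB : Commute W (k r q) := comm_k Wr Wq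
  have W2 : Commute W (k (k r q) z) := comm_k WB Wz
  rw [k_mul_of WB]
  have e1 : Commute (k (k r q) z) a := H.h2 q hq z hz
  rw [k_mul_of (comm_k W2.symm e1).symm, k_eq_one.2 e1, mul_one]

theorem pig3 {α : Type u} (f : Fin 3 → α) (x y z w : α) (h0 : x ∈ Set.range f)
    (h1 : y ∈ Set.range f) (h2 : z ∈ Set.range f) (h3 : w ∈ Set.range f) (a1 : y ≠ x)
    (a2 : z ≠ x) (a3 : z ≠ y) : w = x ∨ w = y ∨ w = z := by
  have h : ∀ j, ![x, y, z, w] j ∈ Set.range f := by
    intro j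
    fin_cases j <;> assumption
  choose g hg using h
  obtain ⟨i, j, hij, he⟩ := Fintype.exists_ne_map_eq_of_card_lt g (by simp)
  have he' : ![x, y, z, w] i = ![x, y, z, w] j := by rw [← hg i, ← hg j, he]
  by_contra hcon
  push Not at hcon
  obtain ⟨b0, b1, b2⟩ := hcon
  fin_cases i <;> fin_cases j <;> simp at hij he'
  all_goals first
    | exact a1 he' | exact a1 he'.symm | exact a2 he' | exact a2 he'.symm | exact a3 he'
    | exact a3 he'.symm | exact b0 he' | exact b0 he'.symm | exact b1 he'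
    | exact b1 he'.symm | exact b2 he' | exact b2 he'.symm

/-- `[r, x, y, z, a]` commutes with everything -/
theorem HE.dcomm (h5 : ∀ g : G, g ^ 5 = 1) (hX : Sys X) {r a x y z : G} (H : HE X r a)
    (hx : x ∈ X) (hy : y ∈ X) (hz : z ∈ X) :
    Commute (k (k (k (k r x) y) z) a) r ∧ Commute (k (k (k (k r x) y) z) a) a ∧
      Commute (k (k (k (k r x) y) z) a) x ∧ Commute (k (k (k (k r x) y) z) a) y ∧
      Commute (k (k (k (k r x) y) z) a) z := by
  have hr := H.mr
  have key : ∀ x ∈ X, ∀ y ∈ X, ∀ z ∈ X, Commute (k (k (k (k r x) y) z) a) a ∧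
      Commute (k (k (k (k r x) y) z) a) z := by
    intro x hx y hy z hz
    have V := hX.v h5 (hX.kc _ (hX.kc _ hr _ hx) _ hy) hz H.ma
    exact ⟨V.pd, V.pa⟩
  refine ⟨?_, (key x hx y hy z hz).1, ?_, ?_, (key x hx y hy z hz).2⟩
  · exact (comm_k (hX.r3 h5 hr hx hy hz).symm H.h0).symm
  · rw [H.swap1 h5 hX hx hy hz, H.swap2 h5 hX hy hx hz]
    exact (key y hy z hz x hx).2
  · rw [H.swap2 h5 hX hx hy hz]
    exact (key x hx z hz y hy).2

end

end Pool.Agent.R669.Sw
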