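import Pool.Agent.R669.SwE

/-!
# Sandwich systems in groups of exponent five: all elements have abelian normal closures
-/

set_option autoImplicit false

namespace Pool.Agent.R669.Sw

open Subgroup

universe u v

section

variable {G : Type u} [Group G] {X : Set G}

theorem cj_inv_mem (h5 : ∀ g : G, g ^ 5 = 1) {S : Subgroup G} {y : G}
    (h : ∀ g ∈ S, cj g y ∈ S) : ∀ g ∈ S, cj g y⁻¹ ∈ S := by
  intro g hg
  have h1 : y⁻¹ = y * (y * (y * y)) := by
    rw [inv_eq_iff_mul_eq_one]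
    rw [← h5 y]
    simp only [pow_succ, pow_zero, one_mul, mul_assoc]
  rw [h1, ← cj_cj, ← cj_cj, ← cj_cj]
  exact h _ (h _ (h _ (h g hg)))

/-- the letters -/
def Lt (a b c d : G) : Set G := {y | y = a ∨ y ∈ Set.range ![b, c, d]}

omit [Group G] in
theorem Lt_mem {a b c d : G} (ha : a ∈ X) (hb : b ∈ X) (hc : c ∈ X) (hd : d ∈ X) {y : G}
    (hy : y ∈ Lt a b c d) : y ∈ X := by
  rcases hy with rfl | ⟨i, rfl⟩
  · exact ha
  · fin_cases i <;> assumption

theorem HE.c4 (h5 : ∀ g : G, g ^ 5 = 1) (hX : Sys X) {r a b c d : G} (H : HE X r a)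
    (hb : b ∈ X) (hc : c ∈ X) (hd : d ∈ X) {x y z w v : G} (hx : x ∈ Lt a b c d)
    (hy : y ∈ Lt a b c d) (hz : z ∈ Lt a b c d) (hw : w ∈ Lt a b c d)
    (hv : v ∈ Lt a b c d ∨ v = r) : Commute (k (k (k (k r x) y) z) w) v := by
  have mm : ∀ {y : G}, y ∈ Lt a b c d → y ∈ X := fun h => Lt_mem H.ma hb hc hd h
  have x' := mm hx
  have y' := mm hy
  have z' := mm hz
  have w' := mm hw
  have one : ∀ {t : G}, t = 1 → Commute t v := fun h => by rw [h]; exact Commute.one_left v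
  have rx := hX.kc _ H.mr _ x'
  have rxy := hX.kc _ rx _ y'
  rcases hx with rfl | hx
  · refine one ?_
    rw [k_eq_one.2 H.h0]; simp only [k_one_left]
  rcases hy with rfl | hy
  · refine one ?_
    rw [k_eq_one.2 (H.h1 x x')]; simp only [k_one_left]
  rcases hz with rfl | hz
  · refine one ?_
    rw [k_eq_one.2 (H.h2 x x' y y')]; simp only [k_one_left]
  by_cases a1 : y = x
  · refine one ?_
    rw [a1, hX.gap0 H.mr x']; simp only [k_one_left]
  by_cases a2 : z = x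
  · refine one ?_
    rw [a2, hX.gap1 h5 H.mr x' y']; simp only [k_one_left]
  by_cases a3 : z = y
  · refine one ?_
    rw [a3, hX.gap0 rx y']; simp only [k_one_left]
  rcases hw with rfl | hw
  · have hD := H.dcomm h5 hX x' y' z'
    rcases hv with (rfl | hv) | rfl
    · exact hD.2.1
    · rcases pig3 _ x y z v hx hy hz hv a1 a2 a3 with rfl | rfl | rfl
      · exact hD.2.2.1
      · exact hD.2.2.2.1
      · exact hD.2.2.2.2
    · exact hD.1
  · refine one ?_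
    rcases pig3 _ x y z w hx hy hz hw a1 a2 a3 with rfl | rfl | rfl
    · exact hX.gap2 h5 H.mr x' y' z'
    · exact hX.gap1 h5 rx y' z'
    · exact hX.gap0 rxy z'

theorem HE.rcomm (h5 : ∀ g : G, g ^ 5 = 1) (hX : Sys X) {r a b c d : G} (H : HE X r a)
    (hb : b ∈ X) (hc : c ∈ X) (hd : d ∈ X) (l : List G) (hl : ∀ y ∈ l, y ∈ Lt a b c d) :
    Commute (cm r l) r := by
  have mm : ∀ {y : G}, y ∈ Lt a b c d → y ∈ X := fun h => Lt_mem H.ma hb hc hd h
  match l, hl with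
  | [], _ => exact Commute.refl r
  | [x], hl =>
    have x' := mm (hl x (by simp))
    exact (hX.sand.two _ H.mr _ x').symm
  | [x, y], hl =>
    have x' := mm (hl x (by simp))
    have y' := mm (hl y (by simp))
    exact (hX.v h5 H.mr x' y').ps
  | [x, y, z], hl =>
    have x' := mm (hl x (by simp))
    have y' := mm (hl y (by simp))
    have z' := mm (hl z (by simp))
    exact hX.r3 h5 H.mr x' y' z'
  | x :: y :: z :: w :: l, hl =>
    have hx := hl x (by simp)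
    have hy := hl y (by simp)
    have hz := hl z (by simp)
    have hw := hl w (by simp)
    have hC := fun v hv => H.c4 h5 hX hb hc hd hx hy hz hw (v := v) hv
    match l, hl with
    | [], _ => exact hC r (Or.inr rfl)
    | v :: l, hl =>
      have hv := hl v (by simp)
      have e : cm r (x :: y :: z :: w :: v :: l) = 1 := by
        rw [cm_cons, cm_cons, cm_cons, cm_cons, cm_cons, k_eq_one.2 (hC v (Or.inl hv)), cm_one]
      rw [e]
      exact Commute.one_left r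

/-- the abelian normal subgroup -/
def SS (r a b c d : G) : Subgroup G :=
  closure {g | ∃ l : List G, (∀ y ∈ l, y ∈ Lt a b c d) ∧ g = cm r l}

theorem cm_snoc (r : G) (l : List G) (y : G) : cm r (l ++ [y]) = k (cm r l) y := by
  rw [cm_append]; rfl

theorem SS_cj {r a b c d y : G} (hy : y ∈ Lt a b c d) : ∀ g ∈ SS r a b c d,
    cj g y ∈ SS r a b c d := by
  intro g hg
  induction hg using closure_induction with
  | mem g hg =>
    obtain ⟨l, hl, rfl⟩ := hg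
    rw [cj_eq]
    refine mul_mem (subset_closure ⟨l, hl, rfl⟩) (subset_closure ⟨l ++ [y], ?_, ?_⟩)
    · intro z hz
      rcases List.mem_append.1 hz with hz | hz
      · exact hl z hz
      · rw [List.mem_singleton] at hz
        rw [hz]; exact hy
    · rw [cm_snoc]
  | one =>
    have : cj (1 : G) y = 1 := by simp [cj]
    rw [this]; exact one_mem _
  | mul g h _ _ ihg ihh => rw [cj_mul]; exact mul_mem ihg ihh
  | inv g _ ih => rw [cj_inv]; exact inv_mem ih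

theorem HE.ab (h5 : ∀ g : G, g ^ 5 = 1) (hX : Sys X) {r a b c d : G} (H : HE X r a)
    (hb : b ∈ X) (hc : c ∈ X) (hd : d ∈ X) : ∀ g ∈ SS r a b c d, ∀ h ∈ SS r a b c d,
    Commute g h := by
  have hr : ∀ h ∈ SS r a b c d, Commute r h := by
    intro h hh
    have h1 : SS r a b c d ≤ centralizer {r} := by
      refine (closure_le _).2 ?_
      rintro _ ⟨l, hl, rfl⟩
      rw [SetLike.mem_coe, mem_centralizer_singleton_iff]
      exact (H.rcomm h5 hX hb hc hd l hl).eq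
    exact (mem_centralizer_singleton_iff.1 (h1 hh)).symm
  have key : ∀ l : List G, (∀ y ∈ l, y ∈ Lt a b c d) → ∀ h ∈ SS r a b c d,
      Commute (cm r l) h := by
    intro l
    induction l using List.reverseRecOn with
    | nil => intro _ h hh; exact hr h hh
    | append_singleton l y ih =>
      intro hl h hh
      have hl' : ∀ z ∈ l, z ∈ Lt a b c d := fun z hz => hl z (by simp [hz])
      have hy : y ∈ Lt a b c d := hl y (by simp)
      rw [cm_snoc, k_eq]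
      refine ((ih hl' h hh).inv_left).mul_left ?_
      have h1 := comm_cj (ih hl' _ (cj_inv_mem h5 (SS_cj hy) h hh)) y
      rwa [cj_cj, inv_mul_cancel, cj_one] at h1
  intro g hg h hh
  have h1 : SS r a b c d ≤ centralizer {h} := by
    refine (closure_le _).2 ?_
    rintro _ ⟨l, hl, rfl⟩
    rw [SetLike.mem_coe, mem_centralizer_singleton_iff]
    exact (key l hl h hh).eq
  exact mem_centralizer_singleton_iff.1 (h1 hg)

/-- conjugation on an invariant subgroup -/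
def ph (S : Subgroup G) (y : G) (h : ∀ g ∈ S, cj g y ∈ S) : S →* S where
  toFun g := ⟨cj g y, h g g.2⟩
  map_one' := Subtype.ext (by simp [cj])
  map_mul' g g' := Subtype.ext (cj_mul _ _ _)

theorem HE.three (h5 : ∀ g : G, g ^ 5 = 1) (hX : Sys X) {r a b c d : G} (H : HE X r a)
    (hb : b ∈ X) (hc : c ∈ X) (hd : d ∈ X) : Commute (k (k (k r b) c) d) a := by
  rw [← k_eq_one]
  set S := SS r a b c d with hS
  have hab : ∀ g ∈ S, ∀ h ∈ S, Commute g h := H.ab h5 hX hb hc hd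
  let _ : CommGroup S := { (inferInstance : Group S) with
    mul_comm := fun g h => Subtype.ext (hab g g.2 h h.2).eq }
  have la : a ∈ Lt a b c d := Or.inl rfl
  have lb : b ∈ Lt a b c d := Or.inr ⟨0, rfl⟩
  have lc : c ∈ Lt a b c d := Or.inr ⟨1, rfl⟩
  have ld : d ∈ Lt a b c d := Or.inr ⟨2, rfl⟩
  have mS : ∀ l : List G, (∀ y ∈ l, y ∈ Lt a b c d) → cm r l ∈ S :=
    fun l hl => subset_closure ⟨l, hl, rfl⟩
  let P : (y : G) → y ∈ Lt a b c d → (Additive S →+ Additive S) :=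
    fun y hy => (ph S y (SS_cj hy)).toAdditive
  have tE : ∀ {g h : G} {mg : g ∈ S} {mh : h ∈ S} {y : G} (hy : y ∈ Lt a b c d), k g y = h →
      P y hy (Additive.ofMul (⟨g, mg⟩ : S)) =
        Additive.ofMul (⟨g, mg⟩ : S) + Additive.ofMul (⟨h, mh⟩ : S) := by
    intro g h mg mh y hy e
    refine congrArg Additive.ofMul (Subtype.ext ?_ :
      (ph S y (SS_cj hy)) ⟨g, mg⟩ = (⟨g, mg⟩ : S) * ⟨h, mh⟩)
    change cj g y = g * h
    rw [cj_eq, e]
  have t1 : ∀ {g : G} {mg : g ∈ S} {y : G} (hy : y ∈ Lt a b c d), k g y = 1 →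
      P y hy (Additive.ofMul (⟨g, mg⟩ : S)) = Additive.ofMul (⟨g, mg⟩ : S) := by
    intro g mg y hy e
    refine congrArg Additive.ofMul (Subtype.ext ?_ :
      (ph S y (SS_cj hy)) ⟨g, mg⟩ = (⟨g, mg⟩ : S))
    change cj g y = g
    rw [cj_eq, e, mul_one]
  have hD := H.dcomm h5 hX hb hc hd
  have hDa := hD.2.1
  have hDb := hD.2.2.1
  have hDc := hD.2.2.2.1
  have hDd := hD.2.2.2.2
  have M5 : ∀ m : Additive S, 5 • m = 0 := by
    intro m
    change (m.toMul) ^ 5 = (1 : S)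
    exact Subtype.ext (h5 _)
  have hb' : ∀ y ∈ [b, c, d], y ∈ Lt a b c d := by
    intro y hy
    simp only [List.mem_cons, List.not_mem_nil, or_false] at hy
    rcases hy with rfl | rfl | rfl <;> assumption
  have m_r : cm r [] ∈ S := mS [] (by simp [*])
  have m_b : cm r [b] ∈ S := mS [b] (by simp [*])
  have m_c : cm r [c] ∈ S := mS [c] (by simp [*])
  have m_d : cm r [d] ∈ S := mS [d] (by simp [*])
  have m_bc : cm r [b, c] ∈ S := mS [b, c] (by simp [*])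
  have m_bd : cm r [b, d] ∈ S := mS [b, d] (by simp [*])
  have m_cb : cm r [c, b] ∈ S := mS [c, b] (by simp [*])
  have m_cd : cm r [c, d] ∈ S := mS [c, d] (by simp [*])
  have m_db : cm r [d, b] ∈ S := mS [d, b] (by simp [*])
  have m_dc : cm r [d, c] ∈ S := mS [d, c] (by simp [*])
  have m_bcd : cm r [b, c, d] ∈ S := mS [b, c, d] (by simp [*])
  have m_bdc : cm r [b, d, c] ∈ S := mS [b, d, c] (by simp [*])
  have m_cbd : cm r [c, b, d] ∈ S := mS [c, b, d] (by simp [*])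
  have m_cdb : cm r [c, d, b] ∈ S := mS [c, d, b] (by simp [*])
  have m_dbc : cm r [d, b, c] ∈ S := mS [d, b, c] (by simp [*])
  have m_dcb : cm r [d, c, b] ∈ S := mS [d, c, b] (by simp [*])
  have m_bcda : cm r [b, c, d, a] ∈ S := mS [b, c, d, a] (by simp [*])
  have hs : P d ld (P c lc (P b lb (P a la (P d ld (P c lc (P b lb (P a la (P d ld (P c lc (P b lb
      (P a la (P d ld (P c lc (P b lb (P a la (Additive.ofMul (⟨r, m_r⟩ : S))))))))))))))))) +
      P d ld (P c lc (P b lb (P a la (P d ld (P c lc (P b lb (P a la (P d ld (P c lc (P b lb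
      (P a la (Additive.ofMul (⟨r, m_r⟩ : S))))))))))))) +
      P d ld (P c lc (P b lb (P a la (P d ld (P c lc (P b lb (P a la
      (Additive.ofMul (⟨r, m_r⟩ : S))))))))) +
      P d ld (P c lc (P b lb (P a la (Additive.ofMul (⟨r, m_r⟩ : S))))) +
      Additive.ofMul (⟨r, m_r⟩ : S) = 0 := by
    refine congrArg Additive.ofMul (Subtype.ext ?_ : (_ : S) = 1)
    change cj (cj (cj (cj (cj (cj (cj (cj (cj (cj (cj (cj (cj (cj (cj (cj r
      a) b) c) d) a) b) c) d) a) b) c) d) a) b) c) d *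
      cj (cj (cj (cj (cj (cj (cj (cj (cj (cj (cj (cj r a) b) c) d) a) b) c) d) a) b) c) d *
      cj (cj (cj (cj (cj (cj (cj (cj r a) b) c) d) a) b) c) d *
      cj (cj (cj (cj r a) b) c) d * r = 1
    have h1 := h5 (a * b * c * d * r)
    have h2 := h5 (a * b * c * d)
    have h3 : cj (cj (cj (cj (cj (cj (cj (cj (cj (cj (cj (cj (cj (cj (cj (cj r
      a) b) c) d) a) b) c) d) a) b) c) d) a) b) c) d *
      cj (cj (cj (cj (cj (cj (cj (cj (cj (cj (cj (cj r a) b) c) d) a) b) c) d) a) b) c) d *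
      cj (cj (cj (cj (cj (cj (cj (cj r a) b) c) d) a) b) c) d *
      cj (cj (cj (cj r a) b) c) d * r =
        ((a * b * c * d) ^ 5)⁻¹ * (a * b * c * d * r) ^ 5 := by
      unfold cj
      simp only [pow_succ, pow_zero, one_mul, mul_inv_rev]
      group
    rw [h3, h1, h2, inv_one, one_mul]
  have hfin := lin M5 (P a la) (P b lb) (P c lc) (P d ld)
    (Additive.ofMul (⟨r, m_r⟩ : S))
    (Additive.ofMul (⟨k r b, m_b⟩ : S))
    (Additive.ofMul (⟨k r c, m_c⟩ : S))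
    (Additive.ofMul (⟨k r d, m_d⟩ : S))
    (Additive.ofMul (⟨k (k r b) c, m_bc⟩ : S))
    (Additive.ofMul (⟨k (k r b) d, m_bd⟩ : S))
    (Additive.ofMul (⟨k (k r c) b, m_cb⟩ : S))
    (Additive.ofMul (⟨k (k r c) d, m_cd⟩ : S))
    (Additive.ofMul (⟨k (k r d) b, m_db⟩ : S))
    (Additive.ofMul (⟨k (k r d) c, m_dc⟩ : S))
    (Additive.ofMul (⟨k (k (k r b) c) d, m_bcd⟩ : S))
    (Additive.ofMul (⟨k (k (k r b) d) c, m_bdc⟩ : S))
    (Additive.ofMul (⟨k (k (k r c) b) d, m_cbd⟩ : S))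
    (Additive.ofMul (⟨k (k (k r c) d) b, m_cdb⟩ : S))
    (Additive.ofMul (⟨k (k (k r d) b) c, m_dbc⟩ : S))
    (Additive.ofMul (⟨k (k (k r d) c) b, m_dcb⟩ : S))
    (Additive.ofMul (⟨k (k (k (k r b) c) d) a, m_bcda⟩ : S))
    (t1 la (k_eq_one.2 H.h0)) (tE lb rfl) (tE lc rfl) (tE ld rfl)
    (t1 la (k_eq_one.2 (H.h1 _ hb))) (t1 lb (hX.gap0 H.mr hb)) (tE lc rfl) (tE ld rfl)
    (t1 la (k_eq_one.2 (H.h1 _ hc))) (tE lb rfl) (t1 lc (hX.gap0 H.mr hc)) (tE ld rfl)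
    (t1 la (k_eq_one.2 (H.h1 _ hd))) (tE lb rfl) (tE lc rfl) (t1 ld (hX.gap0 H.mr hd))
    (t1 la (k_eq_one.2 (H.h2 _ hb _ hc))) (t1 lb (hX.gap1 h5 H.mr hb hc))
    (t1 lc (hX.gap0 (hX.kc _ H.mr _ hb) hc)) (tE ld rfl) (t1 la (k_eq_one.2 (H.h2 _ hb _ hd)))
    (t1 lb (hX.gap1 h5 H.mr hb hd)) (tE lc rfl) (t1 ld (hX.gap0 (hX.kc _ H.mr _ hb) hd))
    (t1 la (k_eq_one.2 (H.h2 _ hc _ hb))) (t1 lb (hX.gap0 (hX.kc _ H.mr _ hc) hb))
    (t1 lc (hX.gap1 h5 H.mr hc hb)) (tE ld rfl) (t1 la (k_eq_one.2 (H.h2 _ hc _ hd))) (tE lb rfl)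
    (t1 lc (hX.gap1 h5 H.mr hc hd)) (t1 ld (hX.gap0 (hX.kc _ H.mr _ hc) hd))
    (t1 la (k_eq_one.2 (H.h2 _ hd _ hb))) (t1 lb (hX.gap0 (hX.kc _ H.mr _ hd) hb)) (tE lc rfl)
    (t1 ld (hX.gap1 h5 H.mr hd hb)) (t1 la (k_eq_one.2 (H.h2 _ hd _ hc))) (tE lb rfl)
    (t1 lc (hX.gap0 (hX.kc _ H.mr _ hd) hc)) (t1 ld (hX.gap1 h5 H.mr hd hc)) (tE la (rfl))
    (t1 lb (hX.gap2 h5 H.mr hb hc hd)) (t1 lc (hX.gap1 h5 (hX.kc _ H.mr _ hb) hc hd))
    (t1 ld (hX.gap0 (hX.kc _ (hX.kc _ H.mr _ hb) _ hc) hd)) (tE la (H.swap2 h5 hX hb hd hc))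
    (t1 lb (hX.gap2 h5 H.mr hb hd hc)) (t1 lc (hX.gap0 (hX.kc _ (hX.kc _ H.mr _ hb) _ hd) hc))
    (t1 ld (hX.gap1 h5 (hX.kc _ H.mr _ hb) hd hc)) (tE la (H.swap1 h5 hX hc hb hd))
    (t1 lb (hX.gap1 h5 (hX.kc _ H.mr _ hc) hb hd)) (t1 lc (hX.gap2 h5 H.mr hc hb hd))
    (t1 ld (hX.gap0 (hX.kc _ (hX.kc _ H.mr _ hc) _ hb) hd))
    (tE la ((H.swap2 h5 hX hc hd hb).trans (H.swap1 h5 hX hc hb hd)))
    (t1 lb (hX.gap0 (hX.kc _ (hX.kc _ H.mr _ hc) _ hd) hb)) (t1 lc (hX.gap2 h5 H.mr hc hd hb))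
    (t1 ld (hX.gap1 h5 (hX.kc _ H.mr _ hc) hd hb))
    (tE la ((H.swap1 h5 hX hd hb hc).trans (H.swap2 h5 hX hb hd hc)))
    (t1 lb (hX.gap1 h5 (hX.kc _ H.mr _ hd) hb hc))
    (t1 lc (hX.gap0 (hX.kc _ (hX.kc _ H.mr _ hd) _ hb) hc)) (t1 ld (hX.gap2 h5 H.mr hd hb hc))
    (tE la (((H.swap1 h5 hX hd hc hb).trans (H.swap2 h5 hX hc hd hb)).trans (H.swap1 h5 hX hc hb hd)))
    (t1 lb (hX.gap0 (hX.kc _ (hX.kc _ H.mr _ hd) _ hc) hb))
    (t1 lc (hX.gap1 h5 (hX.kc _ H.mr _ hd) hc hb)) (t1 ld (hX.gap2 h5 H.mr hd hc hb))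
    (t1 la (k_eq_one.2 (hDa))) (t1 lb (k_eq_one.2 (hDb))) (t1 lc (k_eq_one.2 (hDc)))
    (t1 ld (k_eq_one.2 (hDd)))
    ((P d ld).comp ((P c lc).comp ((P b lb).comp (P a la)))) (fun _ => rfl) hs
  exact congrArg Subtype.val (congrArg Additive.toMul hfin)

end

end Pool.Agent.R669.Sw
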