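import Mathlib

/-!
# Two generators of wreath products with a cyclic group

Let `H` have exponent `d`. The regular wreath product of `H` and a cyclic group `Q` of order `m` has
exponent `d m`, and from `m + 1` elements of `H` one gets two elements of the wreath product; if
these generate a finite group, so do the `m + 1` elements.
-/

set_option autoImplicit false

namespace Pool.Agent.R669

open Subgroup

section
variable {H Q : Type} [Group H] [Group Q]

theorem wr_pow_right (a : RegularWreathProduct H Q) (k : ℕ) : (a ^ k).right = a.right ^ k := by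
  induction k with
  | zero => simp
  | succ k ih => rw [pow_succ, pow_succ, RegularWreathProduct.mul_right, ih]

theorem wr_pow_left (a : RegularWreathProduct H Q) (h : a.right = 1) (k : ℕ) (x : Q) :
    (a ^ k).left x = (a.left x) ^ k := by
  induction k with
  | zero => simp
  | succ k ih =>
    rw [pow_succ, pow_succ, RegularWreathProduct.mul_left, Pi.mul_apply, ih, wr_pow_right, h]
    simp

theorem wr_exp {d m : ℕ} (hH : ∀ x : H, x ^ d = 1) (hQ : ∀ q : Q, q ^ m = 1)
    (a : RegularWreathProduct H Q) : a ^ (m * d) = 1 := by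
  rw [pow_mul]
  have h1 : (a ^ m).right = 1 := by rw [wr_pow_right, hQ]
  refine RegularWreathProduct.ext ?_ ?_
  · funext x
    rw [wr_pow_left _ h1, hH]
    rfl
  · rw [wr_pow_right, h1, one_pow]
    rfl

/-- the values at `1` of the elements with trivial second component -/
def ev1 (K : Subgroup (RegularWreathProduct H Q)) : Subgroup H where
  carrier := {h | ∃ w ∈ K, w.right = 1 ∧ w.left 1 = h}
  one_mem' := ⟨1, one_mem _, rfl, rfl⟩
  mul_mem' := by
    rintro a b ⟨v, hv, hv1, rfl⟩ ⟨w, hw, hw1, rfl⟩
    refine ⟨v * w, mul_mem hv hw, ?_, ?_⟩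
    · rw [RegularWreathProduct.mul_right, hv1, hw1, one_mul]
    · rw [RegularWreathProduct.mul_left, Pi.mul_apply, hv1]
      simp
  inv_mem' := by
    rintro a ⟨v, hv, hv1, rfl⟩
    refine ⟨v⁻¹, inv_mem hv, ?_, ?_⟩
    · rw [RegularWreathProduct.inv_right, hv1, inv_one]
    · rw [RegularWreathProduct.inv_left]
      simp [hv1]

theorem ev1_finite (K : Subgroup (RegularWreathProduct H Q)) [Finite K] : Finite (ev1 K) := by
  have h1 : ((ev1 K : Subgroup H) : Set H) ⊆
      (fun w : RegularWreathProduct H Q => w.left 1) '' (K : Set (RegularWreathProduct H Q)) := by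
    rintro h ⟨w, hw, -, rfl⟩
    exact ⟨w, hw, rfl⟩
  have h2 : (K : Set (RegularWreathProduct H Q)).Finite := Set.toFinite _
  exact ((h2.image _).subset h1).to_subtype

variable [DecidableEq Q]

/-- the second generator -/
def vv (z : H) (t : Q) : RegularWreathProduct H Q := ⟨fun x => if x = 1 then z else 1, t⟩

theorem vv_pow (z : H) (t : Q) (k : ℕ) (hk : k < orderOf t) :
    ((vv z t) ^ (k + 1)).left 1 = z := by
  induction k with
  | zero => simp [vv]
  | succ k ih =>
    rw [pow_succ, RegularWreathProduct.mul_left, Pi.mul_apply, ih (by omega), wr_pow_right]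
    have h1 : t ^ (k + 1) ≠ 1 := pow_ne_one_of_lt_orderOf (by omega) hk
    have h2 : ((vv z t).right ^ (k + 1))⁻¹ * 1 ≠ 1 := by
      rw [mul_one]
      intro h
      exact h1 (inv_eq_one.1 h)
    have h3 : (vv z t).left (((vv z t).right ^ (k + 1))⁻¹ * 1) = 1 := if_neg h2
    rw [h3, mul_one]

/-- **The reduction.** `Q` is cyclic, generated by `t`. -/
theorem wr_two (z : H) (F : Q → H) (t : Q) (ht : ∀ q : Q, q ∈ zpowers t) (hf : 0 < orderOf t)
    (hfin : Finite (closure ({⟨F, 1⟩, vv z t} : Set (RegularWreathProduct H Q)))) :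
    Finite (closure (insert z (Set.range F))) := by
  set u : RegularWreathProduct H Q := ⟨F, 1⟩ with hu
  set K : Subgroup (RegularWreathProduct H Q) := closure {u, vv z t} with hK
  have huK : u ∈ K := subset_closure (Or.inl rfl)
  have hvK : vv z t ∈ K := subset_closure (Or.inr rfl)
  have hz : z ∈ ev1 K := by
    refine ⟨(vv z t) ^ (orderOf t), pow_mem hvK _, ?_, ?_⟩
    · rw [wr_pow_right]
      exact pow_orderOf_eq_one t
    · have h := vv_pow z t (orderOf t - 1) (by omega)
      rwa [Nat.sub_add_cancel hf] at h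
  have hF : ∀ q : Q, F q ∈ ev1 K := by
    intro q
    have hfo : IsOfFinOrder t := orderOf_pos_iff.1 hf
    obtain ⟨k, hk1, hk⟩ : ∃ k : ℕ, k < orderOf t ∧ t ^ k = q⁻¹ := by
      have h1 := ht q⁻¹
      obtain ⟨k, hk⟩ := (hfo.mem_powers_iff_mem_zpowers (y := q⁻¹)).2 h1
      refine ⟨k % orderOf t, Nat.mod_lt _ hf, ?_⟩
      rw [pow_mod_orderOf]
      exact hk
    set w := (vv z t) ^ k * u * ((vv z t) ^ k)⁻¹ with hw
    have hwK : w ∈ K := mul_mem (mul_mem (pow_mem hvK _) huK) (inv_mem (pow_mem hvK _))
    have hr : w.right = 1 := by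
      rw [hw, RegularWreathProduct.mul_right, RegularWreathProduct.mul_right,
        RegularWreathProduct.inv_right]
      simp [hu]
    have hr2 : ((vv z t) ^ k).right = q⁻¹ := by
      rw [wr_pow_right]
      exact hk
    have hl : w.left 1 = ((vv z t) ^ k).left 1 * F q * (((vv z t) ^ k).left 1)⁻¹ := by
      rw [hw, RegularWreathProduct.mul_left, RegularWreathProduct.mul_left,
        RegularWreathProduct.inv_left]
      simp [hu, hr2]
    have hw1 : ((vv z t) ^ k).left 1 ∈ ev1 K := by
      rcases k with _ | k
      · simp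
      · rw [vv_pow z t k (by omega)]
        exact hz
    have h3 : w.left 1 ∈ ev1 K := ⟨w, hwK, hr, rfl⟩
    rw [hl] at h3
    have h4 := mul_mem (mul_mem (inv_mem hw1) h3) hw1
    have h5 : (((vv z t) ^ k).left 1)⁻¹ * (((vv z t) ^ k).left 1 * F q *
        (((vv z t) ^ k).left 1)⁻¹) * ((vv z t) ^ k).left 1 = F q := by group
    rwa [h5] at h4
  have hle : closure (insert z (Set.range F)) ≤ ev1 K := by
    rw [closure_le]
    rintro x (rfl | ⟨q, rfl⟩)
    · exact hz
    · exact hF q
  have := ev1_finite K
  exact Finite.of_injective (inclusion hle) (inclusion_injective hle)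

end

/-- If the two-generator subgroups of all groups of exponent dividing `m * d` are finite and
`m ≥ 2`, then the three-generator subgroups of all groups of exponent dividing `d` are finite. -/
theorem three_of_two {d m : ℕ} (hm : 2 ≤ m)
    (h : ∀ (W : Type) [Group W], (∀ x : W, x ^ (m * d) = 1) → ∀ x y : W,
      Finite (closure ({x, y} : Set W)))
    (G : Type) [Group G] (hG : ∀ x : G, x ^ d = 1) (a b c : G) :
    Finite (closure ({a, b, c} : Set G)) := by
  classical
  have : NeZero m := ⟨by omega⟩
  let Q := Multiplicative (ZMod m)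
  let t : Q := Multiplicative.ofAdd 1
  have hQ : ∀ q : Q, q ^ m = 1 := by
    intro q
    have h1 : m • (Multiplicative.toAdd q) = 0 := by
      rw [nsmul_eq_mul, ZMod.natCast_self, zero_mul]
    exact h1
  have ho : orderOf t = m := by
    rw [orderOf_ofAdd_eq_addOrderOf]
    exact ZMod.addOrderOf_one m
  have ht : ∀ q : Q, q ∈ zpowers t := by
    intro q
    refine ⟨((Multiplicative.toAdd q : ZMod m).val : ℤ), ?_⟩
    change t ^ ((Multiplicative.toAdd q : ZMod m).val : ℤ) = q
    rw [zpow_natCast]
    change Multiplicative.ofAdd ((Multiplicative.toAdd q : ZMod m).val • (1 : ZMod m)) = q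
    rw [nsmul_eq_mul, mul_one, ZMod.natCast_zmod_val]
    rfl
  let F : Q → G := fun q => if q = 1 then a else b
  have h1 := h (RegularWreathProduct G Q) (wr_exp hG hQ) ⟨F, 1⟩ (vv c t)
  have h2 := wr_two c F t ht (by omega) h1
  have hle : closure ({a, b, c} : Set G) ≤ closure (insert c (Set.range F)) := by
    rw [closure_le]
    rintro x (rfl | rfl | rfl)
    · exact subset_closure (Or.inr ⟨1, if_pos rfl⟩)
    · refine subset_closure (Or.inr ⟨t, if_neg ?_⟩)
      intro h3
      rw [← orderOf_eq_one_iff, ho] at h3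
      omega
    · exact subset_closure (Or.inl rfl)
  exact Finite.of_injective (inclusion hle) (inclusion_injective hle)

end Pool.Agent.R669
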